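import Pool.Agent.X214.LG.Mixed

/-!
# The commutator on the common tangent space
-/

set_option autoImplicit false
set_option linter.unusedSectionVars false

namespace Pool.Agent.X214.LG

open Topology Filter Pool.Agent.Y538.Net Module

variable {𝕜 : Type} [RCLike 𝕜]

section gen

variable {E Z : Type} [NormedAddCommGroup E] [NormedSpace 𝕜 E] [NormedAddCommGroup Z]
  [NormedSpace 𝕜 Z]

lemma H2_symm {f : E → 𝕜} {x : E} (hf : ContDiffAt 𝕜 2 f x) (h1 h2 : E) :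
    H2 f x h1 h2 = H2 f x h2 h1 := by
  have h := hf.isSymmSndFDerivAt (by simp)
  exact h.eq h1 h2

/-- Second derivative of a composition. -/
lemma H2_comp' {t : Z → 𝕜} {F : E → Z} {x : E} (hF : ContDiffAt 𝕜 2 F x)
    (ht : ContDiffAt 𝕜 2 t (F x)) (h1 h2 : E) :
    H2 (fun y => t (F y)) x h1 h2 = H2 t (F x) (fderiv 𝕜 F x h1) (fderiv 𝕜 F x h2) +
      fderiv 𝕜 t (F x) (fderiv 𝕜 (fderiv 𝕜 F) x h1 h2) := by
  have hc : ContDiffAt 𝕜 2 (fun y => t (F y)) x := ht.comp x hF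
  rw [H2_eval hc]
  have e1 : (fun y => fderiv 𝕜 (fun y => t (F y)) y h2) =ᶠ[𝓝 x]
      fun y => fderiv 𝕜 t (F y) (fderiv 𝕜 F y h2) := by
    have a1 : ∀ᶠ y in 𝓝 x, DifferentiableAt 𝕜 t (F y) := hF.continuousAt.eventually (ev1 ht)
    filter_upwards [a1, ev1 hF] with y b1 b2
    have b3 : HasFDerivAt (fun y => t (F y)) ((fderiv 𝕜 t (F y)).comp (fderiv 𝕜 F y)) y :=
      b1.hasFDerivAt.comp y b2.hasFDerivAt
    rw [b3.fderiv]
    rfl
  rw [e1.fderiv_eq]
  have c1 : HasFDerivAt (fun y => fderiv 𝕜 t (F y))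
      ((fderiv 𝕜 (fderiv 𝕜 t) (F x)).comp (fderiv 𝕜 F x)) x :=
    (diff2 ht).hasFDerivAt.comp x (diff1 hF).hasFDerivAt
  have c2 : HasFDerivAt (fun y => fderiv 𝕜 F y h2)
      ((fderiv 𝕜 (fderiv 𝕜 F) x).flip h2) x := by
    have := (diff2 hF).hasFDerivAt.clm_apply (hasFDerivAt_const h2 x)
    simpa using this
  have c3 := c1.clm_apply c2
  rw [c3.fderiv]
  simp [H2, add_comm]

lemma H2_zero (x : E) : H2 (fun _ : E => (0 : 𝕜)) x = 0 := by
  have h := H2_affine (E := E) (0 : E →L[𝕜] 𝕜) 0 x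
  have e : (fun y : E => (0 : E →L[𝕜] 𝕜) y + 0) = (fun _ : E => (0 : 𝕜)) := by
    funext y; simp
  rw [e] at h
  exact h

lemma H2_sum {ι : Type} (s : Finset ι) {f : ι → E → 𝕜} {x : E}
    (hf : ∀ i ∈ s, ContDiffAt 𝕜 2 (f i) x) :
    H2 (fun y => ∑ i ∈ s, f i y) x = ∑ i ∈ s, H2 (f i) x := by
  classical
  induction s using Finset.induction_on with
  | empty => simpa using H2_zero x
  | insert i s hi ih =>
    have h1 : (fun y => ∑ j ∈ insert i s, f j y) = f i + fun y => ∑ j ∈ s, f j y := by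
      funext y
      rw [Finset.sum_insert hi]
      rfl
    rw [h1, H2_add (hf i (Finset.mem_insert_self _ _))
      (ContDiffAt.sum fun j hj => hf j (Finset.mem_insert_of_mem hj)),
      ih fun j hj => hf j (Finset.mem_insert_of_mem hj), Finset.sum_insert hi]

/-- The derivative of a matrix valued map. -/
noncomputable def dM {n : ℕ} (P : E → Matrix (Fin n) (Fin n) 𝕜) (x : E) :
    E →ₗ[𝕜] Matrix (Fin n) (Fin n) 𝕜 where
  toFun h := Matrix.of fun i j => fderiv 𝕜 (fun x => P x i j) x h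
  map_add' h k := by
    ext i j
    simp
  map_smul' c h := by
    ext i j
    simp

lemma dM_apply {n : ℕ} (P : E → Matrix (Fin n) (Fin n) 𝕜) (x h : E) (i j : Fin n) :
    dM P x h i j = fderiv 𝕜 (fun x => P x i j) x h := rfl

end gen

variable {X Y : Type} [NormedAddCommGroup X] [NormedSpace 𝕜 X]
  [NormedAddCommGroup Y] [NormedSpace 𝕜 Y]

lemma mixed_prod {n : ℕ} {P : X → Matrix (Fin n) (Fin n) 𝕜} {R : Y → Matrix (Fin n) (Fin n) 𝕜}
    {p : X × Y} (hP : ∀ i j, ContDiffAt 𝕜 2 (fun x => P x i j) p.1)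
    (hR : ∀ i j, ContDiffAt 𝕜 2 (fun y => R y i j) p.2) (i j : Fin n) (h : X) (k : Y) :
    H2 (fun q : X × Y => (P q.1 * R q.2) i j) p (h, 0) (0, k) =
      (dM P p.1 h * dM R p.2 k) i j := by
  have e : (fun q : X × Y => (P q.1 * R q.2) i j) =
      fun q : X × Y => ∑ l, (P q.1 i l) * (R q.2 l j) := by
    funext q
    rw [Matrix.mul_apply]
  rw [e, H2_sum Finset.univ (f := fun l (q : X × Y) => (P q.1 i l) * (R q.2 l j))
    (fun l _ => ((hP i l).comp p contDiffAt_fst).mul ((hR l j).comp p contDiffAt_snd)),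
    Matrix.mul_apply]
  simp only [_root_.sum_apply]
  refine Finset.sum_congr rfl fun l _ => ?_
  exact mixed_mul (u := fun x => P x i l) (v := fun y => R y l j) (hP i l) (hR l j) h k

lemma first_fst {n : ℕ} {P : X → Matrix (Fin n) (Fin n) 𝕜} {R : Y → Matrix (Fin n) (Fin n) 𝕜}
    {p : X × Y} (hP : ∀ i j, ContDiffAt 𝕜 2 (fun x => P x i j) p.1)
    (hR : ∀ i j, ContDiffAt 𝕜 2 (fun y => R y i j) p.2) (i j : Fin n) (h : X) (k : Y) :
    fderiv 𝕜 (fun q : X × Y => (P q.1 * R q.2) i j) p (h, k) =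
      (dM P p.1 h * R p.2 + P p.1 * dM R p.2 k) i j := by
  have e : (fun q : X × Y => (P q.1 * R q.2) i j) =
      fun q : X × Y => ∑ l, (P q.1 i l) * (R q.2 l j) := by
    funext q
    rw [Matrix.mul_apply]
  have hd : HasFDerivAt (fun q : X × Y => ∑ l, (P q.1 i l) * (R q.2 l j))
      (∑ l, (P p.1 i l • ((fderiv 𝕜 (fun y => R y l j) p.2).comp
        (ContinuousLinearMap.snd 𝕜 X Y)) + R p.2 l j • ((fderiv 𝕜 (fun x => P x i l) p.1).comp
        (ContinuousLinearMap.fst 𝕜 X Y)))) p := by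
    refine HasFDerivAt.fun_sum fun l _ => ?_
    have h1 : HasFDerivAt (fun q : X × Y => P q.1 i l)
        ((fderiv 𝕜 (fun x => P x i l) p.1).comp (ContinuousLinearMap.fst 𝕜 X Y)) p :=
      (diff1 (hP i l)).hasFDerivAt.comp p hasFDerivAt_fst
    have h2 : HasFDerivAt (fun q : X × Y => R q.2 l j)
        ((fderiv 𝕜 (fun y => R y l j) p.2).comp (ContinuousLinearMap.snd 𝕜 X Y)) p :=
      (diff1 (hR l j)).hasFDerivAt.comp p hasFDerivAt_snd
    exact h1.mul h2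
  rw [e, hd.fderiv]
  simp only [_root_.sum_apply, Matrix.add_apply, Matrix.mul_apply,
    ← Finset.sum_add_distrib]
  refine Finset.sum_congr rfl fun l _ => ?_
  simp [dM_apply]
  ring

/-- The commutator of the matrices of a space of dimension at least `dim X + dim Y - m` is
computed by the second order terms of the gates. -/
theorem bracket {n m a b L : ℕ} [FiniteDimensional 𝕜 X] [FiniteDimensional 𝕜 Y]
    {P : X → Matrix (Fin n) (Fin n) 𝕜}
    {R : Y → Matrix (Fin n) (Fin n) 𝕜} {T : (Fin m → 𝕜) → Matrix (Fin n) (Fin n) 𝕜}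
    {x₀ : X} {y₀ : Y} {z₀ : Fin m → 𝕜}
    (hP : IsChart P x₀) (hR : IsChart R y₀)
    (hT : ∀ i j, ContDiffAt 𝕜 2 (fun z => T z i j) z₀)
    (hPu : IsUnit (P x₀)) (hRu : IsUnit (R y₀)) (hM : Multiplies a b L P R T x₀ y₀ z₀) :
    ∃ V : Submodule 𝕜 (Matrix (Fin n) (Fin n) 𝕜),
      finrank 𝕜 X + finrank 𝕜 Y ≤ finrank 𝕜 V + m ∧
      ∃ (f g : ℕ → Fin a → (Matrix (Fin n) (Fin n) 𝕜 →ₗ[𝕜] 𝕜))
        (β : ℕ → Fin b → Fin a → Fin a → 𝕜) (W : ℕ → Fin b → Matrix (Fin n) (Fin n) 𝕜),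
        ∀ A ∈ V, ∀ B ∈ V, A * B - B * A = ∑ s ∈ Finset.range L, ∑ o,
          (∑ i, ∑ j, β s o i j * (f s j A * g s i B - f s j B * g s i A)) • W s o := by
  classical
  obtain ⟨D, gg, F, hnet, hp, hFree, hF0, hTF⟩ := hM
  set p : X × Y := (x₀, y₀) with hpdef
  have hgd := gates_contDiff' hnet hp
  -- smoothness of `F`
  have hFr : ∀ r, (fun q => F q r) ∈ Free D gg L := fun r =>
    hFree (ContinuousLinearMap.proj r)
  have hFrc : ∀ r, ContDiffAt 𝕜 2 (fun q => F q r) p := fun r =>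
    free_contDiff hp hgd _ (hFr r)
  have hFc : ContDiffAt 𝕜 2 F p := contDiffAt_pi.mpr hFrc
  have hTc : ∀ i j, ContDiffAt 𝕜 2 (fun z => T z i j) (F p) := by
    rw [hF0]; exact hT
  -- the two partial derivatives of `F`
  let F1 : X →ₗ[𝕜] (Fin m → 𝕜) :=
    ((fderiv 𝕜 F p).comp (ContinuousLinearMap.inl 𝕜 X Y)).toLinearMap
  let F2 : Y →ₗ[𝕜] (Fin m → 𝕜) :=
    ((fderiv 𝕜 F p).comp (ContinuousLinearMap.inr 𝕜 X Y)).toLinearMap
  have hF1 : ∀ h, F1 h = fderiv 𝕜 F p (h, 0) := fun h => by simp [F1]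
  have hF2 : ∀ k, F2 k = fderiv 𝕜 F p (0, k) := fun k => by simp [F2]
  -- first order
  have hfirst : ∀ (h : X) (k : Y), dM T (F p) (fderiv 𝕜 F p (h, k)) =
      dM P x₀ h * R y₀ + P x₀ * dM R y₀ k := by
    intro h k
    refine Matrix.ext fun i j => ?_
    have e1 : (fun q => T (F q) i j) =ᶠ[𝓝 p] fun q : X × Y => (P q.1 * R q.2) i j := by
      filter_upwards [hTF] with q hq
      rw [hq]
    have e2 : HasFDerivAt (fun q => T (F q) i j)
        ((fderiv 𝕜 (fun z => T z i j) (F p)).comp (fderiv 𝕜 F p)) p :=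
      (diff1 (hTc i j)).hasFDerivAt.comp p (diff1 hFc).hasFDerivAt
    have e3 := e1.fderiv_eq (𝕜 := 𝕜)
    rw [e2.fderiv] at e3
    have e4 := DFunLike.congr_fun e3 (h, k)
    rw [first_fst (p := p) hP.1 hR.1] at e4
    rw [dM_apply]
    exact e4
  -- second order
  have hsecond : ∀ (h : X) (k : Y) (i j : Fin n),
      H2 (fun z => T z i j) (F p) (F1 h) (F2 k) +
        dM T (F p) (fderiv 𝕜 (fderiv 𝕜 F) p (h, 0) (0, k)) i j =
      (dM P x₀ h * dM R y₀ k) i j := by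
    intro h k i j
    have e1 : (fun q => T (F q) i j) =ᶠ[𝓝 p] fun q : X × Y => (P q.1 * R q.2) i j := by
      filter_upwards [hTF] with q hq
      rw [hq]
    have e2 := H2_comp' hFc (hTc i j) (h, 0) (0, k)
    rw [H2_congr e1, mixed_prod (p := p) hP.1 hR.1] at e2
    rw [hF1, hF2, dM_apply]
    exact e2.symm
  -- the gates
  obtain ⟨U, V', β, hmix⟩ := net_mixed hnet hp
  choose C hC using fun r => hmix _ (hFr r)
  have hF2nd : ∀ (h : X) (k : Y), fderiv 𝕜 (fderiv 𝕜 F) p (h, 0) (0, k) =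
      ∑ s ∈ Finset.range L, ∑ o, (∑ i, ∑ j, β s o i j * (U s j h * V' s i k)) •
        (fun r => C r s o) := by
    intro h k
    funext r
    have e1 := H2_comp' hFc
      (t := fun z : Fin m → 𝕜 => (ContinuousLinearMap.proj (R := 𝕜) (φ := fun _ => 𝕜) r) z)
      (ContinuousLinearMap.contDiff _).contDiffAt (h, 0) (0, k)
    have e2 : H2 (fun z : Fin m → 𝕜 =>
        (ContinuousLinearMap.proj (R := 𝕜) (φ := fun _ : Fin m => 𝕜) r) z) (F p) = 0 := by
      have := H2_affine (ContinuousLinearMap.proj (R := 𝕜) (φ := fun _ : Fin m => 𝕜) r) 0 (F p)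
      simpa using this
    rw [e2] at e1
    rw [ContinuousLinearMap.fderiv] at e1
    have e3 := hC r h k
    have e4 : H2 (fun q => F q r) p (h, 0) (0, k) =
      fderiv 𝕜 (fderiv 𝕜 F) p (h, 0) (0, k) r := by
      have : H2 (fun q => F q r) p (h, 0) (0, k) = H2 (fun y =>
        (ContinuousLinearMap.proj (R := 𝕜) (φ := fun _ : Fin m => 𝕜) r) (F y)) p (h, 0) (0, k) :=
        rfl
      rw [this, e1]
      simp
    rw [← e4, e3]
    simp only [Finset.sum_apply, Pi.smul_apply, smul_eq_mul]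
    refine Finset.sum_congr rfl fun s _ => Finset.sum_congr rfl fun o _ => ?_
    ring
  -- the common tangent space
  let Gm : X × Y →ₗ[𝕜] (Fin m → 𝕜) :=
    F1.comp (LinearMap.fst 𝕜 X Y) - F2.comp (LinearMap.snd 𝕜 X Y)
  let K := LinearMap.ker Gm
  have hK : ∀ q : X × Y, q ∈ K ↔ F1 q.1 = F2 q.2 := by
    intro q
    rw [LinearMap.mem_ker]
    simp [Gm, sub_eq_zero]
  have hKdim : finrank 𝕜 X + finrank 𝕜 Y ≤ finrank 𝕜 K + m := by
    have h1 := Gm.finrank_range_add_finrank_ker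
    have h2 : finrank 𝕜 (LinearMap.range Gm) ≤ m := by
      have := Submodule.finrank_le (LinearMap.range Gm)
      simpa using this
    rw [Module.finrank_prod] at h1
    have h3 : finrank 𝕜 K = finrank 𝕜 (LinearMap.ker Gm) := rfl
    omega
  obtain ⟨gu, hgu⟩ := hPu
  obtain ⟨hu, hhu⟩ := hRu
  obtain ⟨gi, hgi1, hgi2⟩ : ∃ gi : Matrix (Fin n) (Fin n) 𝕜, P x₀ * gi = 1 ∧ gi * P x₀ = 1 :=
    ⟨((gu⁻¹ : (Matrix (Fin n) (Fin n) 𝕜)ˣ) : Matrix (Fin n) (Fin n) 𝕜), by rw [← hgu]; simp,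
      by rw [← hgu]; simp⟩
  obtain ⟨hi, hhi1, hhi2⟩ : ∃ hi : Matrix (Fin n) (Fin n) 𝕜, R y₀ * hi = 1 ∧ hi * R y₀ = 1 :=
    ⟨((hu⁻¹ : (Matrix (Fin n) (Fin n) 𝕜)ˣ) : Matrix (Fin n) (Fin n) 𝕜), by rw [← hhu]; simp,
      by rw [← hhu]; simp⟩
  -- relation between the tangent vectors
  have hrel : ∀ q ∈ K, P x₀ * dM R y₀ q.2 = dM P x₀ q.1 * R y₀ := by
    intro q hq
    have h1 := hfirst q.1 0
    have h2 := hfirst 0 q.2
    rw [map_zero, mul_zero, add_zero, ← hF1] at h1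
    rw [map_zero, zero_mul, zero_add, ← hF2, ← (hK q).mp hq] at h2
    rw [← h1, h2]
  have hPinj : ∀ h, dM P x₀ h = 0 → h = 0 := by
    intro h hh
    refine hP.2 h fun i j => ?_
    have := congrFun (congrFun hh i) j
    simpa [dM_apply] using this
  have hRinj : ∀ h, dM R y₀ h = 0 → h = 0 := by
    intro h hh
    refine hR.2 h fun i j => ?_
    have := congrFun (congrFun hh i) j
    simpa [dM_apply] using this
  let Φ : K →ₗ[𝕜] Matrix (Fin n) (Fin n) 𝕜 :=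
    (LinearMap.mulLeft 𝕜 gi).comp
      ((dM P x₀).comp ((LinearMap.fst 𝕜 X Y).comp K.subtype))
  have hΦ : ∀ q : K, Φ q = gi * dM P x₀ (q : X × Y).1 := fun q => rfl
  have hΦinj : Function.Injective Φ := by
    rw [injective_iff_map_eq_zero]
    rintro ⟨⟨h, k⟩, hq⟩ h0
    rw [hΦ] at h0
    have h1 : dM P x₀ h = 0 := by
      have := congrArg (fun M => P x₀ * M) h0
      simpa [← mul_assoc, hgi1] using this
    have h2 : h = 0 := hPinj h h1
    have h3 := hrel _ hq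
    simp only at h3
    rw [h1, zero_mul] at h3
    have h4 : dM R y₀ k = 0 := by
      have := congrArg (fun M => gi * M) h3
      simpa [← mul_assoc, hgi2] using this
    have h5 : k = 0 := hRinj k h4
    ext1
    simp [h2, h5]
  obtain ⟨Ψ, hΨ⟩ := LinearMap.exists_leftInverse_of_injective Φ (LinearMap.ker_eq_bot.mpr hΦinj)
  refine ⟨LinearMap.range Φ, ?_, ?_⟩
  · rw [LinearMap.finrank_range_of_inj hΦinj]
    exact hKdim
  let xs : Matrix (Fin n) (Fin n) 𝕜 →ₗ[𝕜] X :=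
    (LinearMap.fst 𝕜 X Y).comp (K.subtype.comp Ψ)
  let ys : Matrix (Fin n) (Fin n) 𝕜 →ₗ[𝕜] Y :=
    (LinearMap.snd 𝕜 X Y).comp (K.subtype.comp Ψ)
  refine ⟨fun s j => (U s j).toLinearMap.comp xs, fun s j => (V' s j).toLinearMap.comp ys, β,
    fun s o => gi * dM T (F p) (fun r => C r s o) * hi, ?_⟩
  rintro A ⟨qA, rfl⟩ B ⟨qB, rfl⟩
  have hΨA : ∀ q : K, Ψ (Φ q) = q := fun q => by
    have := congrArg (fun f => f q) hΨ
    simpa using this
  have hxA : ∀ q : K, xs (Φ q) = (q : X × Y).1 := fun q => by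
    simp only [xs, LinearMap.comp_apply, hΨA]; rfl
  have hyA : ∀ q : K, ys (Φ q) = (q : X × Y).2 := fun q => by
    simp only [ys, LinearMap.comp_apply, hΨA]; rfl
  have hdP : ∀ q : K, dM P x₀ (q : X × Y).1 = P x₀ * Φ q := by
    intro q
    rw [hΦ, ← mul_assoc, hgi1, one_mul]
  have hdR : ∀ q : K, dM R y₀ (q : X × Y).2 = Φ q * R y₀ := by
    intro q
    have h1 := hrel _ q.2
    rw [hdP] at h1
    have := congrArg (fun M => gi * M) h1
    simpa [← mul_assoc, hgi2] using this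
  have hFq : ∀ q : K, F1 (q : X × Y).1 = F2 (q : X × Y).2 := fun q => (hK _).mp q.2
  have key : P x₀ * (Φ qA * Φ qB - Φ qB * Φ qA) * R y₀ =
      dM T (F p) (fderiv 𝕜 (fderiv 𝕜 F) p ((qA : X × Y).1, 0) (0, (qB : X × Y).2)) -
      dM T (F p) (fderiv 𝕜 (fderiv 𝕜 F) p ((qB : X × Y).1, 0) (0, (qA : X × Y).2)) := by
    refine Matrix.ext fun i j => ?_
    have h1 := hsecond (qA : X × Y).1 (qB : X × Y).2 i j
    have h2 := hsecond (qB : X × Y).1 (qA : X × Y).2 i j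
    rw [← hFq qB, hdP, hdR] at h1
    rw [← hFq qA, hdP, hdR, H2_symm (hTc i j)] at h2
    rw [Matrix.sub_apply]
    have h3 : (P x₀ * (Φ qA * Φ qB - Φ qB * Φ qA) * R y₀) i j =
      (P x₀ * Φ qA * (Φ qB * R y₀)) i j - (P x₀ * Φ qB * (Φ qA * R y₀)) i j := by
      rw [← Matrix.sub_apply]
      noncomm_ring
    rw [h3, ← h1, ← h2]
    ring
  have key2 : Φ qA * Φ qB - Φ qB * Φ qA = gi *
      (dM T (F p) (fderiv 𝕜 (fderiv 𝕜 F) p ((qA : X × Y).1, 0) (0, (qB : X × Y).2)) -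
      dM T (F p) (fderiv 𝕜 (fderiv 𝕜 F) p ((qB : X × Y).1, 0) (0, (qA : X × Y).2))) * hi := by
    rw [← key, ← mul_assoc, ← mul_assoc, hgi2, one_mul, mul_assoc, hhi1, mul_one]
  rw [key2, hF2nd, hF2nd, ← map_sub, ← Finset.sum_sub_distrib]
  simp only [← Finset.sum_sub_distrib, ← sub_smul, map_sum, map_smul, Finset.mul_sum,
    Finset.sum_mul, Matrix.mul_smul, Matrix.smul_mul, ← mul_sub, LinearMap.comp_apply, hxA, hyA]
  rfl

end Pool.Agent.X214.LG
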