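import Mathlib

/-!
# Networks with two inputs in normed spaces: definitions
-/

set_option autoImplicit false

namespace Pool.Agent.X214.LG

open Topology

variable {𝕜 : Type} [RCLike 𝕜] {X Y Z : Type} [NormedAddCommGroup X] [NormedSpace 𝕜 X]
  [NormedAddCommGroup Y] [NormedSpace 𝕜 Y] [NormedAddCommGroup Z] [NormedSpace 𝕜 Z]

/-- What is available for free after the first `l` gates: linear combinations of functions of the
first input alone and of functions of the second input alone, which are twice continuously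
differentiable at the inputs that occur, and of the outputs of the first `l` gates. -/
def Free {b : ℕ} (D : Set (X × Y)) (g : ℕ → Fin b → X × Y → 𝕜) (l : ℕ) :
    Submodule 𝕜 (X × Y → 𝕜) :=
  Submodule.span 𝕜 {f |
    (∃ φ : X → 𝕜, (∀ p ∈ D, ContDiffAt 𝕜 2 φ p.1) ∧ f = fun p => φ p.1) ∨
    (∃ φ : Y → 𝕜, (∀ p ∈ D, ContDiffAt 𝕜 2 φ p.2) ∧ f = fun p => φ p.2) ∨
    ∃ s < l, ∃ o, f = g s o}

/-- `g 0, …, g (L - 1)` are the outputs of the gates of a network with input in the open set `D`: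
the `l`-th gate applies a map `φ : 𝕜 ^ a → 𝕜 ^ b` to `a` functions in `Free D g l`, and `φ` is twice
continuously differentiable at the values that occur. -/
def IsNet (a b L : ℕ) (D : Set (X × Y)) (g : ℕ → Fin b → X × Y → 𝕜) : Prop :=
  IsOpen D ∧ ∀ l < L, ∃ (u : Fin a → X × Y → 𝕜) (φ : (Fin a → 𝕜) → Fin b → 𝕜),
    (∀ i, u i ∈ Free D g l) ∧
      ∀ p ∈ D, ContDiffAt 𝕜 2 φ (fun i => u i p) ∧ ∀ o, g l o p = φ (fun i => u i p) o

/-- `P` is, near `x₀`, a twice continuously differentiable parametrization of a family of `n × n`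
matrices whose derivative at `x₀` is injective. -/
def IsChart {n : ℕ} (P : X → Matrix (Fin n) (Fin n) 𝕜) (x₀ : X) : Prop :=
  (∀ i j, ContDiffAt 𝕜 2 (fun x => P x i j) x₀) ∧
    ∀ h : X, (∀ i j, fderiv 𝕜 (fun x => P x i j) x₀ h = 0) → h = 0

/-- A network with `L` gates multiplies the matrices `P x` and `R y`, given by their coordinates
`x`, `y`, for all `x` near `x₀` and all `y` near `y₀`; the result is given by its coordinates `F` in
the chart `T`, with `F (x₀, y₀) = z₀`. -/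
def Multiplies {n : ℕ} (a b L : ℕ) (P : X → Matrix (Fin n) (Fin n) 𝕜)
    (R : Y → Matrix (Fin n) (Fin n) 𝕜) (T : Z → Matrix (Fin n) (Fin n) 𝕜)
    (x₀ : X) (y₀ : Y) (z₀ : Z) : Prop :=
  ∃ (D : Set (X × Y)) (g : ℕ → Fin b → X × Y → 𝕜) (F : X × Y → Z),
    IsNet a b L D g ∧ (x₀, y₀) ∈ D ∧ (∀ ℓ : Z →L[𝕜] 𝕜, (fun p => ℓ (F p)) ∈ Free D g L) ∧
      F (x₀, y₀) = z₀ ∧ ∀ᶠ p in 𝓝 (x₀, y₀), T (F p) = P p.1 * R p.2

end Pool.Agent.X214.LG
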