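import Pool.Agent.X214.LG.Upper

/-!
# Groups of matrices
-/

set_option autoImplicit false
set_option linter.unusedSectionVars false

namespace Pool.Agent.X214.LG

open Topology Filter Module Pool.Agent.H515R2.MMR Pool.Agent.H53R3

/-- `P` parametrizes, near `0`, a group of invertible matrices near the identity, by `m` real
numbers: `P 0 = 1`, and `P x * P y` is again of the form `P (F (x, y))`, `F` continuous at `(0, 0)`. -/
def IsGroup {n m : ℕ} (P : (Fin m → ℝ) → Matrix (Fin n) (Fin n) ℝ) : Prop :=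
  IsChart P 0 ∧ P 0 = 1 ∧ ∃ F : (Fin m → ℝ) × (Fin m → ℝ) → Fin m → ℝ,
    ContinuousAt F (0, 0) ∧ F (0, 0) = 0 ∧ ∀ᶠ q in 𝓝 (0, 0), P (F q) = P q.1 * P q.2

/-- A change of coordinates near `0`. -/
def IsCoord {m : ℕ} (ψ : (Fin m → ℝ) → Fin m → ℝ) : Prop :=
  ContDiffAt ℝ 2 ψ 0 ∧ ψ 0 = 0 ∧ Function.Bijective (fderiv ℝ ψ 0)

/-- `L` gates multiply the elements of the group `P`, near the identity, in suitable
coordinates for the two factors and for the product. -/
def GroupNet {n m : ℕ} (P : (Fin m → ℝ) → Matrix (Fin n) (Fin n) ℝ) (a b L : ℕ) : Prop :=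
  ∃ ψ₁ ψ₂ ψ₃ : (Fin m → ℝ) → Fin m → ℝ, IsCoord ψ₁ ∧ IsCoord ψ₂ ∧ IsCoord ψ₃ ∧
    Multiplies a b L (fun x => P (ψ₁ x)) (fun x => P (ψ₂ x)) (fun x => P (ψ₃ x)) 0 0 0

lemma isChart_comp {n m : ℕ} {P : (Fin m → ℝ) → Matrix (Fin n) (Fin n) ℝ} (hP : IsChart P 0)
    {ψ : (Fin m → ℝ) → Fin m → ℝ} (hψ : IsCoord ψ) : IsChart (fun x => P (ψ x)) 0 := by
  obtain ⟨h1, h2, h3⟩ := hψ
  have hc : ∀ i j, ContDiffAt ℝ 2 (fun x => P x i j) (ψ 0) := by
    rw [h2]; exact hP.1
  refine ⟨fun i j => (hc i j).comp 0 h1, fun h hh => ?_⟩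
  have h4 : fderiv ℝ ψ 0 h = 0 := by
    refine hP.2 _ fun i j => ?_
    have e : HasFDerivAt (fun x => P (ψ x) i j)
        ((fderiv ℝ (fun x => P x i j) (ψ 0)).comp (fderiv ℝ ψ 0)) 0 :=
      ((hc i j).differentiableAt (by norm_num)).hasFDerivAt.comp 0
        (h1.differentiableAt (by norm_num)).hasFDerivAt
    have h5 := hh i j
    rw [e.fderiv, h2] at h5
    exact h5
  exact h3.1 (h4.trans (map_zero _).symm)

lemma mulEnc_of_groupNet {n m a b L : ℕ} {P : (Fin m → ℝ) → Matrix (Fin n) (Fin n) ℝ}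
    (hP : IsGroup P) (h : GroupNet P a b L) : MulEnc ℝ n m m m a b L := by
  obtain ⟨ψ₁, ψ₂, ψ₃, h1, h2, h3, hM⟩ := h
  have hu : ∀ ψ : (Fin m → ℝ) → Fin m → ℝ, IsCoord ψ → IsUnit (P (ψ 0)) := by
    intro ψ hψ
    rw [hψ.2.1, hP.2.1]
    exact isUnit_one
  exact ⟨_, _, _, 0, 0, 0, isChart_comp hP.1 h1, hu _ h1, isChart_comp hP.1 h2, hu _ h2,
    (isChart_comp hP.1 h3).1, hM⟩

lemma groupNet_of_alg {n m a b : ℕ} {P : (Fin m → ℝ) → Matrix (Fin n) (Fin n) ℝ}
    (hP : IsGroup P) {κ : Type} [Fintype κ] (ha : 2 ≤ a) (hb : 1 ≤ b)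
    (f g : κ → (Matrix (Fin n) (Fin n) ℝ →ₗ[ℝ] ℝ))
    (W : κ → Matrix (Fin n) (Fin n) ℝ) (H : ∀ A B, A * B = ∑ t, (f t A * g t B) • W t) :
    GroupNet P a b (Fintype.card κ) := by
  classical
  obtain ⟨hch, hP0, F, hFc, hF0, hF⟩ := hP
  -- linear functionals giving coordinates
  have hinj : Function.Injective (dM P (0 : Fin m → ℝ)) := by
    rw [injective_iff_map_eq_zero]
    intro h hh
    refine hch.2 h fun i j => ?_
    have := congrFun (congrFun hh i) j
    simpa [dM_apply] using this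
  obtain ⟨lam, hlam⟩ := LinearMap.exists_leftInverse_of_injective (dM P (0 : Fin m → ℝ))
    (LinearMap.ker_eq_bot.mpr hinj)
  -- linear functionals of matrices with smooth entries
  have hsum : ∀ (φ : Matrix (Fin n) (Fin n) ℝ →ₗ[ℝ] ℝ) (A : Matrix (Fin n) (Fin n) ℝ),
      φ A = ∑ i, ∑ j, φ (Matrix.single i j 1) * A i j := by
    intro φ A
    conv_lhs => rw [Matrix.matrix_eq_sum_single A]
    simp only [map_sum]
    refine Finset.sum_congr rfl fun i _ => Finset.sum_congr rfl fun j _ => ?_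
    have : Matrix.single i j (A i j) = A i j • Matrix.single i j (1 : ℝ) := by
      rw [Matrix.smul_single, smul_eq_mul, mul_one]
    rw [this, map_smul, smul_eq_mul, mul_comm]
  have hcd : ∀ (φ : Matrix (Fin n) (Fin n) ℝ →ₗ[ℝ] ℝ) (Q : (Fin m → ℝ) →
      Matrix (Fin n) (Fin n) ℝ) (x : Fin m → ℝ), (∀ i j, ContDiffAt ℝ 2 (fun x => Q x i j) x) →
      ContDiffAt ℝ 2 (fun x => φ (Q x)) x := by
    intro φ Q x hQ
    have : (fun x => φ (Q x)) = fun x => ∑ i, ∑ j, φ (Matrix.single i j 1) * Q x i j := by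
      funext x; exact hsum φ _
    rw [this]
    exact ContDiffAt.sum fun i _ => ContDiffAt.sum fun j _ => contDiffAt_const.mul (hQ i j)
  let pr : Fin m → (Matrix (Fin n) (Fin n) ℝ →ₗ[ℝ] ℝ) := fun r => (LinearMap.proj r).comp lam
  let fz : (Fin m → ℝ) → (Fin m → ℝ) := fun x => lam (P x) - lam 1
  have hfzc : ContDiffAt ℝ 2 fz 0 := by
    refine contDiffAt_pi.mpr fun r => ?_
    have e : (fun x => fz x r) = fun x => pr r (P x) - pr r 1 := rfl
    rw [e]
    exact (hcd (pr r) P 0 hch.1).sub contDiffAt_const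
  have hfzd : HasFDerivAt fz ((ContinuousLinearEquiv.refl ℝ (Fin m → ℝ) :
      (Fin m → ℝ) ≃L[ℝ] (Fin m → ℝ)) : (Fin m → ℝ) →L[ℝ] (Fin m → ℝ)) 0 := by
    rw [hasFDerivAt_pi']
    intro r
    have e : (fun x => fz x r) = fun x =>
        (∑ i, ∑ j, pr r (Matrix.single i j 1) * P x i j) - pr r 1 := by
      funext x
      rw [← hsum (pr r)]
      rfl
    rw [e]
    have hd : HasFDerivAt (fun x => (∑ i, ∑ j, pr r (Matrix.single i j 1) * P x i j) - pr r 1)
        (∑ i, ∑ j, pr r (Matrix.single i j 1) • fderiv ℝ (fun x : Fin m → ℝ => P x i j) 0)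
        (0 : Fin m → ℝ) := by
      have hd1 : HasFDerivAt (fun x => ∑ i, ∑ j, pr r (Matrix.single i j 1) * P x i j)
          (∑ i, ∑ j, pr r (Matrix.single i j 1) • fderiv ℝ (fun x : Fin m → ℝ => P x i j) 0)
          (0 : Fin m → ℝ) :=
        HasFDerivAt.fun_sum fun i _ => HasFDerivAt.fun_sum fun j _ =>
          ((hch.1 i j).differentiableAt (by norm_num)).hasFDerivAt.const_mul _
      exact hd1.sub_const _
    have e2 : (∑ i, ∑ j, pr r (Matrix.single i j 1) •
        fderiv ℝ (fun x : Fin m → ℝ => P x i j) 0) =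
        (ContinuousLinearMap.proj (R := ℝ) (φ := fun _ : Fin m => ℝ) r).comp
        ((ContinuousLinearEquiv.refl ℝ (Fin m → ℝ) :
      (Fin m → ℝ) ≃L[ℝ] (Fin m → ℝ)) : (Fin m → ℝ) →L[ℝ] (Fin m → ℝ)) := by
      refine ContinuousLinearMap.ext fun h => ?_
      have h1 : pr r (dM P 0 h) = h r := by
        have := congrArg (fun f => f h) hlam
        simp only [LinearMap.comp_apply, LinearMap.id_apply] at this
        simp only [pr, LinearMap.comp_apply, this]
        rfl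
      rw [hsum (pr r)] at h1
      simp only [_root_.sum_apply, _root_.smul_apply, smul_eq_mul]
      simp only [dM_apply] at h1
      rw [h1]
      rfl
    rw [← e2]
    exact hd
  have hfz0 : fz 0 = 0 := by
    simp only [fz, hP0, sub_self]
  -- the inverse function
  set ψ := hfzc.localInverse hfzd (by norm_num) with hψ
  have hψ0 : ψ 0 = 0 := by
    have := hfzc.localInverse_apply_image hfzd (by norm_num)
    rw [hfz0] at this
    exact this
  have hψc : ContDiffAt ℝ 2 ψ 0 := by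
    have := hfzc.to_localInverse hfzd (by norm_num)
    rw [hfz0] at this
    exact this
  have hst := hfzc.hasStrictFDerivAt' hfzd (by norm_num)
  have hψl : ∀ᶠ x in 𝓝 (0 : Fin m → ℝ), ψ (fz x) = x := hst.eventually_left_inverse
  have hψd : HasFDerivAt ψ (((ContinuousLinearEquiv.refl ℝ (Fin m → ℝ)).symm :
      (Fin m → ℝ) ≃L[ℝ] (Fin m → ℝ)) : (Fin m → ℝ) →L[ℝ] (Fin m → ℝ)) 0 := by
    have := hst.to_localInverse.hasFDerivAt
    rw [hfz0] at this
    exact this
  have hcoord : IsCoord ψ := by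
    refine ⟨hψc, hψ0, ?_⟩
    rw [hψd.fderiv]
    exact (ContinuousLinearEquiv.refl ℝ (Fin m → ℝ)).symm.bijective
  -- the network
  let Q : (Fin m → ℝ) → Matrix (Fin n) (Fin n) ℝ := fun x => P (ψ x)
  have hQ : ∀ i j, ContDiffAt ℝ 2 (fun x => Q x i j) 0 := (isChart_comp hch hcoord).1
  have hQev : ∀ᶠ x in 𝓝 (0 : Fin m → ℝ), ∀ i j, ContDiffAt ℝ 2 (fun x => Q x i j) x :=
    eventually_all.mpr fun i => eventually_all.mpr fun j => (hQ i j).eventually (by simp)
  obtain ⟨U, hU, hUo, h0U⟩ := eventually_nhds_iff.mp hQev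
  set L := Fintype.card κ with hL
  let e : κ ≃ Fin L := Fintype.equivFin κ
  let p : ℕ → (Fin m → ℝ) → ℝ := fun l x => if h : l < L then f (e.symm ⟨l, h⟩) (Q x) else 0
  let q : ℕ → (Fin m → ℝ) → ℝ := fun l x => if h : l < L then g (e.symm ⟨l, h⟩) (Q x) else 0
  have hp : ∀ l, ∀ x ∈ U, ContDiffAt ℝ 2 (p l) x := by
    intro l x hx
    by_cases h : l < L
    · simp only [p, dif_pos h]; exact hcd _ _ _ (hU x hx)
    · simp only [p, dif_neg h]; exact contDiffAt_const
  have hq : ∀ l, ∀ x ∈ U, ContDiffAt ℝ 2 (q l) x := by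
    intro l x hx
    by_cases h : l < L
    · simp only [q, dif_pos h]; exact hcd _ _ _ (hU x hx)
    · simp only [q, dif_neg h]; exact contDiffAt_const
  let gg : ℕ → Fin b → (Fin m → ℝ) × (Fin m → ℝ) → ℝ := fun l _ z => p l z.1 * q l z.2
  let G : (Fin m → ℝ) × (Fin m → ℝ) → Fin m → ℝ := fun z => lam (Q z.1 * Q z.2) - lam 1
  refine ⟨ψ, ψ, ψ, hcoord, hcoord, hcoord, U ×ˢ U, gg, G, ⟨hUo.prod hUo, ?_⟩, ⟨h0U, h0U⟩,
    free_pi fun r => ?_, ?_, ?_⟩
  · intro l hl
    refine ⟨fun i => if (i : ℕ) = 0 then fun z => p l z.1 else fun z => q l z.2,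
      fun v _ => v ⟨0, by omega⟩ * v ⟨1, by omega⟩, ?_, ?_⟩
    · intro i
      by_cases hi : (i : ℕ) = 0
      · simp only [if_pos hi]
        exact Submodule.subset_span (Or.inl ⟨p l, fun z hz => hp l _ hz.1, rfl⟩)
      · simp only [if_neg hi]
        exact Submodule.subset_span (Or.inr (Or.inl ⟨q l, fun z hz => hq l _ hz.2, rfl⟩))
    · intro x _
      refine ⟨?_, fun o => by simp [gg]⟩
      refine contDiffAt_pi.mpr fun o => ?_
      have h0 : ContDiff ℝ 2 fun v : Fin a → ℝ => v ⟨0, by omega⟩ := contDiff_apply ℝ ℝ _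
      have h1 : ContDiff ℝ 2 fun v : Fin a → ℝ => v ⟨1, by omega⟩ := contDiff_apply ℝ ℝ _
      exact (h0.mul h1).contDiffAt
  · have e1 : (fun z => G z r) = (∑ t, pr r (W t) • gg (e t) ⟨0, hb⟩) +
        fun z : (Fin m → ℝ) × (Fin m → ℝ) => (fun _ : Fin m → ℝ => - pr r 1) z.1 := by
      funext z
      have e2 : G z r = pr r (Q z.1 * Q z.2) - pr r 1 := rfl
      rw [e2, H, map_sum, Pi.add_apply, Finset.sum_apply, ← sub_eq_add_neg]
      congr 1
      refine Finset.sum_congr rfl fun t _ => ?_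
      have h1 : p (e t) = fun x => f t (Q x) := by
        funext x
        simp only [p]
        rw [dif_pos (e t).2]
        congr 2
        exact e.symm_apply_apply t
      have h2 : q (e t) = fun x => g t (Q x) := by
        funext x
        simp only [q]
        rw [dif_pos (e t).2]
        congr 2
        exact e.symm_apply_apply t
      simp only [map_smul, Pi.smul_apply, smul_eq_mul, gg, h1, h2]
      ring
    rw [e1]
    refine Submodule.add_mem _ (Submodule.sum_mem _ fun t _ => Submodule.smul_mem _ _ ?_)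
      (free_fst contDiff_const)
    exact Submodule.subset_span (Or.inr (Or.inr ⟨e t, (e t).2, ⟨0, hb⟩, rfl⟩))
  · show lam (Q 0 * Q 0) - lam 1 = 0
    have : Q 0 = 1 := by simp only [Q, hψ0, hP0]
    rw [this, mul_one, sub_self]
  · -- the group law
    have hψcont : ContinuousAt (fun z : (Fin m → ℝ) × (Fin m → ℝ) => (ψ z.1, ψ z.2)) (0, 0) := by
      refine ContinuousAt.prodMk ?_ ?_
      · exact ContinuousAt.comp (f := Prod.fst) (g := ψ) hψc.continuousAt continuousAt_fst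
      · exact ContinuousAt.comp (f := Prod.snd) (g := ψ) hψc.continuousAt continuousAt_snd
    have ht : Tendsto (fun z : (Fin m → ℝ) × (Fin m → ℝ) => (ψ z.1, ψ z.2)) (𝓝 (0, 0))
        (𝓝 (0, 0)) := by
      have h := hψcont.tendsto
      simp only [hψ0] at h
      exact h
    have ht2 : Tendsto (fun z : (Fin m → ℝ) × (Fin m → ℝ) => F (ψ z.1, ψ z.2)) (𝓝 (0, 0))
        (𝓝 0) := by
      have h := hFc.tendsto.comp ht
      rw [hF0] at h
      exact h
    filter_upwards [ht.eventually hF, ht2.eventually hψl] with z hz1 hz2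
    have h1 : fz (F (ψ z.1, ψ z.2)) = G z := by
      show lam (P (F (ψ z.1, ψ z.2))) - lam 1 = lam (Q z.1 * Q z.2) - lam 1
      rw [hz1]
    rw [h1] at hz2
    show P (ψ (G z)) = P (ψ z.1) * P (ψ z.2)
    rw [hz2, hz1]

/-- The exponent of a sequence of groups. -/
theorem group_exponent {a b : ℕ} (ha : 2 ≤ a) (hb : 1 ≤ b) {ε : ℝ} (hε : 0 < ε) (m : ℕ → ℕ)
    (P : (n : ℕ) → (Fin (m n) → ℝ) → Matrix (Fin n) (Fin n) ℝ) (hP : ∀ n, IsGroup (P n))
    (hm : ∀ᶠ n : ℕ in atTop, (1 / 4 + ε) * (n : ℝ) ^ 2 ≤ m n) :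
    sInf {τ : ℝ | ∃ C : ℝ, ∀ n : ℕ, ∃ L : ℕ, GroupNet (P n) a b L ∧
      (L : ℝ) ≤ C * (n : ℝ) ^ τ} = omega := by
  obtain ⟨c, hc, n₀, hlow⟩ := asymp hε
  obtain ⟨n₁, hn₁⟩ := eventually_atTop.mp hm
  have hlb : ∀ τ ∈ {τ : ℝ | ∃ C : ℝ, ∀ n : ℕ, ∃ L : ℕ, GroupNet (P n) a b L ∧
      (L : ℝ) ≤ C * (n : ℝ) ^ τ}, omega ≤ τ := by
    rintro τ ⟨C, hC⟩
    by_contra hcon
    push Not at hcon
    set K : ℝ := ((a * min a b : ℕ) : ℝ) with hK
    have hK0 : 0 < K := by
      have : 0 < a * min a b := Nat.mul_pos (by omega) (by omega)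
      rw [hK]
      exact_mod_cast this
    have t := (tendsto_rpow_atTop (y := omega - τ) (by linarith)).comp
      (tendsto_natCast_atTop_atTop (R := ℝ))
    obtain ⟨n, hn1, hn2⟩ := ((t.eventually (eventually_gt_atTop (C * K / c))).and
      (eventually_ge_atTop (max 1 (max n₀ n₁)))).exists
    obtain ⟨L, hL1, hL2⟩ := hC n
    have hn3 : 1 ≤ n := le_trans (le_max_left _ _) hn2
    have hn4 : n₀ ≤ n := le_trans (le_trans (le_max_left _ _) (le_max_right _ _)) hn2
    have hn5 : n₁ ≤ n := le_trans (le_trans (le_max_right _ _) (le_max_right _ _)) hn2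
    have hn0 : (0 : ℝ) < n := by exact_mod_cast hn3
    have h1 := hlow ℝ n (m n) (m n) (m n) a b L hn4 (mulEnc_of_groupNet (hP n) hL1) (by
      have := hn₁ n hn5
      linarith)
    have h2 : c * (n : ℝ) ^ omega ≤ C * (n : ℝ) ^ τ * K := by
      refine h1.trans ?_
      rw [Nat.cast_mul, ← hK]
      gcongr
    have h3 : (n : ℝ) ^ omega = (n : ℝ) ^ (omega - τ) * (n : ℝ) ^ τ := by
      rw [← Real.rpow_add hn0]; congr 1; ring
    rw [h3] at h2
    simp only [Function.comp] at hn1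
    have h4 : 0 < (n : ℝ) ^ τ := Real.rpow_pos_of_pos hn0 _
    rw [div_lt_iff₀ hc] at hn1
    nlinarith
  have hsub : {τ : ℝ | ∃ C : ℝ, ∀ n : ℕ, (rk n : ℝ) ≤ C * (n : ℝ) ^ τ} ⊆
      {τ : ℝ | ∃ C : ℝ, ∀ n : ℕ, ∃ L : ℕ, GroupNet (P n) a b L ∧
        (L : ℝ) ≤ C * (n : ℝ) ^ τ} := by
    rintro τ ⟨C, hC⟩
    refine ⟨4 * C, fun n => ⟨Fintype.card (Fin (rk n) × Fin 4), ?_, ?_⟩⟩
    · obtain ⟨f, g, W, H⟩ := real_alg (hasRank_rk n)
      exact groupNet_of_alg (hP n) ha hb f g W H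
    · rw [Fintype.card_prod, Fintype.card_fin, Fintype.card_fin]
      push_cast
      have := hC n
      linarith
  refine le_antisymm ?_ ?_
  · exact csInf_le_csInf ⟨omega, hlb⟩ omega_set_nonempty hsub
  · exact le_csInf (omega_set_nonempty.mono hsub) hlb

/-- The group of the matrices `1 + N`, `N` in the upper right block: no gate. -/
theorem abelian_group (n a b : ℕ) : ∃ P : (Fin (n ^ 2 / 4) → ℝ) → Matrix (Fin n) (Fin n) ℝ,
    IsGroup P ∧ GroupNet P a b 0 := by
  classical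
  let E : {p : Fin n × Fin n // Blk p} ≃ Fin (n ^ 2 / 4) :=
    (Fintype.equivFin _).trans (finCongr (card_blk n))
  let v : (Fin (n ^ 2 / 4) → ℝ) → (Fin n × Fin n → ℝ) := fun z p =>
    if h : Blk p then z (E ⟨p, h⟩) else 0
  have hv : ∀ p, ContDiff ℝ 2 fun z => v z p := by
    intro p
    by_cases h : Blk p
    · simp only [v, dif_pos h]; exact contDiff_coord _
    · simp only [v, dif_neg h]; exact contDiff_const
  let P : (Fin (n ^ 2 / 4) → ℝ) → Matrix (Fin n) (Fin n) ℝ := fun x => 1 + bl (v x)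
  have hPc : ∀ i j, ContDiff ℝ 2 fun x => P x i j := contDiff_one_add (contDiff_bl v hv)
  have hP0 : P 0 = 1 := by
    have : bl (v 0) = 0 := by
      refine Matrix.ext fun i j => ?_
      rw [bl_apply, Matrix.zero_apply]
      split_ifs with h
      · simp [v]
      · rfl
    simp only [P, this, add_zero]
  have hch : IsChart P 0 := by
    refine ⟨fun i j => (hPc i j).contDiffAt, fun h hh => ?_⟩
    funext r
    obtain ⟨⟨⟨i, j⟩, hb⟩, rfl⟩ := E.surjective r
    have h1 := hh i j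
    have h2 : (fun x => P x i j) = fun x : Fin (n ^ 2 / 4) → ℝ =>
        (1 : Matrix (Fin n) (Fin n) ℝ) i j + x (E ⟨(i, j), hb⟩) := by
      funext x
      show (1 + bl (v x)) i j = _
      rw [Matrix.add_apply, bl_apply, if_pos hb]
      simp only [v, dif_pos hb]
    rw [h2, fderiv_const_add, (hasFDerivAt_coord _ _).fderiv] at h1
    exact h1
  have hmul : ∀ x y, P (x + y) = P x * P y := by
    intro x y
    show 1 + bl (v (x + y)) = (1 + bl (v x)) * (1 + bl (v y))
    rw [one_add_bl_mul]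
    congr 2
    funext p
    by_cases h : Blk p
    · simp [v, h]
    · simp [v, h]
  have hid : IsCoord (fun x : Fin (n ^ 2 / 4) → ℝ => x) := by
    refine ⟨contDiffAt_id, rfl, ?_⟩
    have : fderiv ℝ (fun x : Fin (n ^ 2 / 4) → ℝ => x) 0 = ContinuousLinearMap.id ℝ _ :=
      (hasFDerivAt_id 0).fderiv
    rw [this]
    exact Function.bijective_id
  refine ⟨P, ⟨hch, hP0, fun q => q.1 + q.2, (continuous_fst.add continuous_snd).continuousAt,
    by simp, Eventually.of_forall fun q => hmul _ _⟩, fun x => x, fun x => x, fun x => x, hid,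
    hid, hid, Set.univ, fun _ _ _ => 0, fun q => q.1 + q.2,
    ⟨isOpen_univ, fun l hl => absurd hl (Nat.not_lt_zero l)⟩, Set.mem_univ _,
    free_pi fun r => ?_, by simp, Eventually.of_forall fun q => hmul _ _⟩
  exact Submodule.add_mem _ (free_fst (contDiff_coord _)) (free_snd (contDiff_coord _))

end Pool.Agent.X214.LG
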