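import Pool.Agent.X214.LG.Bracket
import Pool.Agent.H53R3.One

/-!
# The lower bound
-/

set_option autoImplicit false
set_option linter.unusedSectionVars false

namespace Pool.Agent.X214.LG

open Topology Filter Module Pool.Agent.H515R2.MMR Pool.Agent.H53R3

variable {𝕜 : Type} [RCLike 𝕜]

/-- Algorithm for the commutator on a space of matrices. -/
def AlgK {n : ℕ} (V : Submodule 𝕜 (Matrix (Fin n) (Fin n) 𝕜)) (ι : Type) [Fintype ι] : Prop :=
  ∃ (f g : ι → (Matrix (Fin n) (Fin n) 𝕜 →ₗ[𝕜] 𝕜)) (W : ι → Matrix (Fin n) (Fin n) 𝕜),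
    ∀ A ∈ V, ∀ B ∈ V, A * B - B * A = ∑ t, (f t A * g t B) • W t

lemma algK_one {n a b L : ℕ} {V : Submodule 𝕜 (Matrix (Fin n) (Fin n) 𝕜)}
    {f g : ℕ → Fin a → (Matrix (Fin n) (Fin n) 𝕜 →ₗ[𝕜] 𝕜)}
    {β : ℕ → Fin b → Fin a → Fin a → 𝕜} {W : ℕ → Fin b → Matrix (Fin n) (Fin n) 𝕜}
    (H : ∀ A ∈ V, ∀ B ∈ V, A * B - B * A = ∑ s ∈ Finset.range L, ∑ o,
          (∑ i, ∑ j, β s o i j * (f s j A * g s i B - f s j B * g s i A)) • W s o) :
    AlgK V ((Fin L × Fin b × Fin a) ⊕ (Fin L × Fin b × Fin a)) := by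
  refine ⟨Sum.elim (fun t => ∑ j, β t.1 t.2.1 t.2.2 j • f t.1 j) (fun t => g t.1 t.2.2),
    Sum.elim (fun t => g t.1 t.2.2) (fun t => ∑ j, β t.1 t.2.1 t.2.2 j • f t.1 j),
    Sum.elim (fun t => W t.1 t.2.1) (fun t => - W t.1 t.2.1), fun A hA B hB => ?_⟩
  rw [H A hA B hB, Fintype.sum_sum_type, Fintype.sum_prod_type, Fintype.sum_prod_type,
    ← Finset.sum_add_distrib, Finset.sum_range]
  refine Finset.sum_congr rfl fun s _ => ?_
  rw [Fintype.sum_prod_type, Fintype.sum_prod_type, ← Finset.sum_add_distrib]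
  refine Finset.sum_congr rfl fun o _ => ?_
  rw [← Finset.sum_add_distrib, Finset.sum_smul]
  refine Finset.sum_congr rfl fun i _ => ?_
  simp only [Sum.elim_inl, Sum.elim_inr, smul_neg, ← sub_eq_add_neg, ← sub_smul]
  congr 1
  simp only [LinearMap.sum_apply, LinearMap.smul_apply, smul_eq_mul, Finset.sum_mul,
    Finset.mul_sum, ← Finset.sum_sub_distrib]
  refine Finset.sum_congr rfl fun j _ => ?_
  ring

lemma algK_two {n a b L : ℕ} {V : Submodule 𝕜 (Matrix (Fin n) (Fin n) 𝕜)}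
    {f g : ℕ → Fin a → (Matrix (Fin n) (Fin n) 𝕜 →ₗ[𝕜] 𝕜)}
    {β : ℕ → Fin b → Fin a → Fin a → 𝕜} {W : ℕ → Fin b → Matrix (Fin n) (Fin n) 𝕜}
    (H : ∀ A ∈ V, ∀ B ∈ V, A * B - B * A = ∑ s ∈ Finset.range L, ∑ o,
          (∑ i, ∑ j, β s o i j * (f s j A * g s i B - f s j B * g s i A)) • W s o) :
    AlgK V ((Fin L × Fin a × Fin a) ⊕ (Fin L × Fin a × Fin a)) := by
  refine ⟨Sum.elim (fun t => f t.1 t.2.2) (fun t => g t.1 t.2.1),
    Sum.elim (fun t => g t.1 t.2.1) (fun t => f t.1 t.2.2),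
    Sum.elim (fun t => ∑ o, β t.1 o t.2.1 t.2.2 • W t.1 o)
      (fun t => - ∑ o, β t.1 o t.2.1 t.2.2 • W t.1 o), fun A hA B hB => ?_⟩
  rw [H A hA B hB, Fintype.sum_sum_type, Fintype.sum_prod_type, Fintype.sum_prod_type,
    ← Finset.sum_add_distrib, Finset.sum_range]
  refine Finset.sum_congr rfl fun s _ => ?_
  rw [Fintype.sum_prod_type, Fintype.sum_prod_type, ← Finset.sum_add_distrib]
  simp only [Finset.sum_smul]
  rw [Finset.sum_comm]
  refine Finset.sum_congr rfl fun i _ => ?_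
  rw [Finset.sum_comm, ← Finset.sum_add_distrib]
  refine Finset.sum_congr rfl fun j _ => ?_
  simp only [Sum.elim_inl, Sum.elim_inr, smul_neg, ← sub_eq_add_neg, ← sub_smul]
  rw [Finset.smul_sum]
  refine Finset.sum_congr rfl fun o _ => ?_
  rw [smul_smul]
  congr 1
  ring

lemma linInd_map {ι κ : Type} [Fintype ι] [DecidableEq ι] [Fintype κ] [DecidableEq κ]
    (σ : 𝕜 →+* ℂ) (e : κ → ι → 𝕜) (he : LinearIndependent 𝕜 e) :
    LinearIndependent ℂ (fun k i => σ (e k i)) := by
  obtain ⟨N, hN⟩ := LinearMap.exists_leftInverse_of_injective (Fintype.linearCombination 𝕜 e)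
    (LinearMap.ker_eq_bot.mpr he.fintypeLinearCombination_injective)
  have hNe : ∀ k k', ∑ i, e k i * N (Pi.single i 1) k' = if k' = k then 1 else 0 := by
    intro k k'
    have h1 : N (e k) = Pi.single k 1 := by
      have h2 := congrArg (fun f => f (Pi.single k 1)) hN
      simpa [Fintype.linearCombination_apply_single] using h2
    have h3 : e k = ∑ i, e k i • (Pi.single i (1 : 𝕜) : ι → 𝕜) := by
      funext j
      simp [Finset.sum_apply, Pi.single_apply]
    have h4 := congrArg (fun v : κ → 𝕜 => v k') h1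
    rw [h3] at h4
    simp only [map_sum, map_smul, Finset.sum_apply, Pi.smul_apply, smul_eq_mul] at h4
    rw [h4, Pi.single_apply]
  rw [Fintype.linearIndependent_iff]
  intro c hc k'
  have h1 : ∑ i, σ (N (Pi.single i 1) k') * (∑ k, c k * σ (e k i)) = 0 := by
    refine Finset.sum_eq_zero fun i _ => ?_
    have := congrFun hc i
    simp only [Finset.sum_apply, Pi.smul_apply, smul_eq_mul, Pi.zero_apply] at this
    rw [this, mul_zero]
  have h2 : ∑ i, σ (N (Pi.single i 1) k') * (∑ k, c k * σ (e k i)) =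
      ∑ k, c k * σ (∑ i, e k i * N (Pi.single i 1) k') := by
    simp only [Finset.mul_sum, map_sum, map_mul]
    rw [Finset.sum_comm]
    refine Finset.sum_congr rfl fun k _ => Finset.sum_congr rfl fun i _ => ?_
    ring
  rw [h2] at h1
  simpa [hNe] using h1

/-- Base change to the complex numbers. -/
lemma baseChange {n : ℕ} (σ : 𝕜 →+* ℂ) {V : Submodule 𝕜 (Matrix (Fin n) (Fin n) 𝕜)} {ι : Type}
    [Fintype ι] (H : AlgK V ι) :
    ∃ V' : Submodule ℂ (Mt n), finrank ℂ V' = finrank 𝕜 V ∧ Alg 1 (-1) V' (Fintype.card ι) := by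
  classical
  obtain ⟨f, g, W, H⟩ := H
  let e := Module.finBasis 𝕜 V
  let v : Fin (finrank 𝕜 V) → Matrix (Fin n) (Fin n) 𝕜 := fun k => (e k : Matrix _ _ 𝕜)
  have hv : LinearIndependent 𝕜 v := by
    have := e.linearIndependent.map' V.subtype (Submodule.ker_subtype V)
    exact this
  let v' : Fin (finrank 𝕜 V) → Mt n := fun k => (v k).map σ
  have hv' : LinearIndependent ℂ v' := by
    have h1 : LinearIndependent 𝕜 (fun k => (fun ij : Fin n × Fin n => v k ij.1 ij.2)) := by
      let E : Matrix (Fin n) (Fin n) 𝕜 →ₗ[𝕜] (Fin n × Fin n → 𝕜) :=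
        { toFun := fun M ij => M ij.1 ij.2
          map_add' := fun _ _ => rfl
          map_smul' := fun _ _ => rfl }
      have hE : LinearMap.ker E = ⊥ := by
        rw [LinearMap.ker_eq_bot']
        intro M hM
        refine Matrix.ext fun i j => ?_
        exact congrFun hM (i, j)
      exact hv.map' E hE
    have h2 := linInd_map σ _ h1
    rw [Fintype.linearIndependent_iff] at h2 ⊢
    intro c hc k
    refine h2 c ?_ k
    funext ij
    have := congrFun (congrFun hc ij.1) ij.2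
    simp only [Matrix.sum_apply, Matrix.smul_apply, v', Matrix.map_apply] at this
    simp only [Finset.sum_apply, Pi.smul_apply]
    exact this
  refine ⟨Submodule.span ℂ (Set.range v'), ?_, ?_⟩
  · rw [finrank_span_eq_card hv']
    simp
  let ext' : (Matrix (Fin n) (Fin n) 𝕜 →ₗ[𝕜] 𝕜) → (Mt n →ₗ[ℂ] ℂ) := fun φ =>
    { toFun := fun A => ∑ i, ∑ j, A i j * σ (φ (Matrix.single i j 1))
      map_add' := fun A B => by
        simp only [Matrix.add_apply, add_mul, Finset.sum_add_distrib]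
      map_smul' := fun c A => by
        simp only [Matrix.smul_apply, smul_eq_mul, Finset.mul_sum, mul_assoc, RingHom.id_apply] }
  have hext : ∀ (φ : Matrix (Fin n) (Fin n) 𝕜 →ₗ[𝕜] 𝕜) (A : Matrix (Fin n) (Fin n) 𝕜),
      ext' φ (A.map σ) = σ (φ A) := by
    intro φ A
    have h1 : φ A = ∑ i, ∑ j, A i j * φ (Matrix.single i j 1) := by
      conv_lhs => rw [Matrix.matrix_eq_sum_single A]
      simp only [map_sum]
      refine Finset.sum_congr rfl fun i _ => Finset.sum_congr rfl fun j _ => ?_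
      have : Matrix.single i j (A i j) = A i j • Matrix.single i j (1 : 𝕜) := by
        rw [Matrix.smul_single, smul_eq_mul, mul_one]
      rw [this, map_smul, smul_eq_mul]
    rw [h1]
    simp only [map_sum, map_mul]
    rfl
  let ee := Fintype.equivFin ι
  refine ⟨fun t => ext' (f (ee.symm t)), fun t => ext' (g (ee.symm t)),
    fun t => (W (ee.symm t)).map σ, ?_⟩
  have hsum : ∀ A B : Mt n, ∑ t, (ext' (f (ee.symm t)) A * ext' (g (ee.symm t)) B) •
      (W (ee.symm t)).map σ = ∑ t, (ext' (f t) A * ext' (g t) B) • (W t).map σ := by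
    intro A B
    exact Equiv.sum_comp ee.symm (fun t => (ext' (f t) A * ext' (g t) B) • (W t).map σ)
  have hgen : ∀ k k', v' k * v' k' - v' k' * v' k =
      ∑ t, (ext' (f t) (v' k) * ext' (g t) (v' k')) • (W t).map σ := by
    intro k k'
    have h1 := H (v k) (e k).2 (v k') (e k').2
    have h2 := congrArg (fun M : Matrix (Fin n) (Fin n) 𝕜 => M.map σ) h1
    have h3 : (v k * v k' - v k' * v k).map σ = v' k * v' k' - v' k' * v' k := by
      rw [Matrix.map_sub _ (by simp)]
      simp only [v', Matrix.map_mul]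
    rw [← h3, h2]
    refine Matrix.ext fun i j => ?_
    simp only [Matrix.map_apply, Matrix.sum_apply, Matrix.smul_apply, smul_eq_mul, map_sum,
      map_mul, v', hext]
  intro A hA B hB
  rw [hsum, one_smul, neg_one_smul, ← sub_eq_add_neg]
  induction hA using Submodule.span_induction with
  | mem A hA =>
    obtain ⟨k, rfl⟩ := hA
    induction hB using Submodule.span_induction with
    | mem B hB =>
      obtain ⟨k', rfl⟩ := hB
      exact hgen k k'
    | zero => simp
    | add B B' _ _ h h' =>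
      simp only [map_add, mul_add, add_mul, add_smul, Finset.sum_add_distrib, ← h, ← h']
      abel
    | smul c B _ h =>
      have : ∑ t, (ext' (f t) (v' k) * ext' (g t) (c • B)) • (W t).map σ =
          c • ∑ t, (ext' (f t) (v' k) * ext' (g t) B) • (W t).map σ := by
        rw [Finset.smul_sum]
        refine Finset.sum_congr rfl fun t _ => ?_
        rw [map_smul, smul_smul, smul_eq_mul]
        congr 1
        ring
      rw [this, ← h, Matrix.mul_smul, Matrix.smul_mul, smul_sub]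
  | zero => simp
  | add A A' _ _ h h' =>
    simp only [map_add, mul_add, add_mul, add_smul, Finset.sum_add_distrib, ← h, ← h']
    abel
  | smul c A _ h =>
    have : ∑ t, (ext' (f t) (c • A) * ext' (g t) B) • (W t).map σ =
        c • ∑ t, (ext' (f t) A * ext' (g t) B) • (W t).map σ := by
      rw [Finset.smul_sum]
      refine Finset.sum_congr rfl fun t _ => ?_
      rw [map_smul, smul_smul, smul_eq_mul]
      congr 1
      ring
    rw [this, ← h, Matrix.mul_smul, Matrix.smul_mul, smul_sub]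

/-- `A` and `B` are invertible matrices given by coordinates `x ∈ 𝕜 ^ m₁`, `y ∈ 𝕜 ^ m₂`
(`A = P x`, `B = R y`, near base points), and `L` gates compute `m` numbers `z` from which `A B` is
recovered by a twice continuously differentiable map `T`. -/
def MulEnc (𝕜 : Type) [RCLike 𝕜] (n m₁ m₂ m a b L : ℕ) : Prop :=
  ∃ (P : (Fin m₁ → 𝕜) → Matrix (Fin n) (Fin n) 𝕜) (R : (Fin m₂ → 𝕜) → Matrix (Fin n) (Fin n) 𝕜)
    (T : (Fin m → 𝕜) → Matrix (Fin n) (Fin n) 𝕜) (x₀ : Fin m₁ → 𝕜) (y₀ : Fin m₂ → 𝕜)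
    (z₀ : Fin m → 𝕜), IsChart P x₀ ∧ IsUnit (P x₀) ∧ IsChart R y₀ ∧ IsUnit (R y₀) ∧
      (∀ i j, ContDiffAt 𝕜 2 (fun z => T z i j) z₀) ∧ Multiplies a b L P R T x₀ y₀ z₀

theorem lower (σ : 𝕜 →+* ℂ) {n m₁ m₂ m a b L q : ℕ} (H : MulEnc 𝕜 n m₁ m₂ m a b L) (hq : 1 ≤ q)
    (hd : n ^ 2 + (16 * q + 4) * n + 4 * m < 4 * (m₁ + m₂)) :
    (q : ℝ) ^ omega ≤ 2 * (L * (a * min a b) : ℕ) := by
  obtain ⟨P, R, T, x₀, y₀, z₀, hP, hPu, hR, hRu, hT, hM⟩ := H
  obtain ⟨V, hV, f, g, β, W, hW⟩ := bracket hP hR hT hPu hRu hM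
  rw [Module.finrank_fin_fun, Module.finrank_fin_fun] at hV
  have hdim : n ^ 2 + (16 * q + 4) * n < 4 * finrank 𝕜 V := by omega
  rcases le_total a b with hab | hab
  · obtain ⟨V', hV', hA⟩ := baseChange σ (algK_two hW)
    rw [← hV'] at hdim
    have h1 := alg_bound hq 1 (-1) (Or.inl one_ne_zero) V' hdim hA.border
    refine h1.trans (le_of_eq ?_)
    rw [min_eq_left hab]
    simp only [Fintype.card_sum, Fintype.card_prod, Fintype.card_fin]
    push_cast
    ring
  · obtain ⟨V', hV', hA⟩ := baseChange σ (algK_one hW)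
    rw [← hV'] at hdim
    have h1 := alg_bound hq 1 (-1) (Or.inl one_ne_zero) V' hdim hA.border
    refine h1.trans (le_of_eq ?_)
    rw [min_eq_right hab]
    simp only [Fintype.card_sum, Fintype.card_prod, Fintype.card_fin]
    push_cast
    ring

end Pool.Agent.X214.LG
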