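import Pool.Agent.X214.LG.Defs
import Pool.Agent.Y538.Net.Hess

/-!
# The mixed second derivatives of the functions computed by a network with two inputs
-/

set_option autoImplicit false
set_option linter.unusedSectionVars false

namespace Pool.Agent.X214.LG

open Topology Filter Pool.Agent.Y538.Net

variable {𝕜 : Type} [RCLike 𝕜] {X Y Z : Type} [NormedAddCommGroup X] [NormedSpace 𝕜 X]
  [NormedAddCommGroup Y] [NormedSpace 𝕜 Y] [NormedAddCommGroup Z] [NormedSpace 𝕜 Z]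

/-- the second derivative through the evaluated first derivative -/
lemma H2_eval {E : Type} [NormedAddCommGroup E] [NormedSpace 𝕜 E] {f : E → 𝕜} {x : E}
    (hf : ContDiffAt 𝕜 2 f x) (h1 h2 : E) :
    H2 f x h1 h2 = fderiv 𝕜 (fun y => fderiv 𝕜 f y h2) x h1 := by
  have h := (diff2 hf).hasFDerivAt.clm_apply (hasFDerivAt_const h2 x)
  rw [h.fderiv]
  simp [H2]

/-- mixed derivative of a function of the first input -/
lemma mixed_fst {φ : X → 𝕜} {p : X × Y} (hφ : ContDiffAt 𝕜 2 φ p.1) (h : X) (k : Y) :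
    H2 (fun q : X × Y => φ q.1) p (h, 0) (0, k) = 0 := by
  have hf : ContDiffAt 𝕜 2 (fun q : X × Y => φ q.1) p := hφ.comp p contDiffAt_fst
  rw [H2_eval hf]
  have h1 : (fun q : X × Y => fderiv 𝕜 (fun q : X × Y => φ q.1) q (0, k)) =ᶠ[𝓝 p] fun _ => 0 := by
    have h2 : ∀ᶠ q : X × Y in 𝓝 p, DifferentiableAt 𝕜 φ q.1 :=
      continuousAt_fst.eventually (ev1 hφ)
    filter_upwards [h2] with q hq
    have h3 : HasFDerivAt (fun q : X × Y => φ q.1)
        ((fderiv 𝕜 φ q.1).comp (ContinuousLinearMap.fst 𝕜 X Y)) q :=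
      hq.hasFDerivAt.comp q hasFDerivAt_fst
    rw [h3.fderiv]
    simp
  rw [h1.fderiv_eq]
  simp

/-- mixed derivative of a function of the second input -/
lemma mixed_snd {φ : Y → 𝕜} {p : X × Y} (hφ : ContDiffAt 𝕜 2 φ p.2) (h : X) (k : Y) :
    H2 (fun q : X × Y => φ q.2) p (h, 0) (0, k) = 0 := by
  have hf : ContDiffAt 𝕜 2 (fun q : X × Y => φ q.2) p := hφ.comp p contDiffAt_snd
  rw [H2_eval hf]
  have h1 : (fun q : X × Y => fderiv 𝕜 (fun q : X × Y => φ q.2) q (0, k)) =ᶠ[𝓝 p]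
      fun q => fderiv 𝕜 φ q.2 k := by
    have h2 : ∀ᶠ q : X × Y in 𝓝 p, DifferentiableAt 𝕜 φ q.2 :=
      continuousAt_snd.eventually (ev1 hφ)
    filter_upwards [h2] with q hq
    have h3 : HasFDerivAt (fun q : X × Y => φ q.2)
        ((fderiv 𝕜 φ q.2).comp (ContinuousLinearMap.snd 𝕜 X Y)) q :=
      hq.hasFDerivAt.comp q hasFDerivAt_snd
    rw [h3.fderiv]
    simp
  rw [h1.fderiv_eq]
  have h4 : DifferentiableAt 𝕜 (fun y => fderiv 𝕜 φ y k) p.2 :=
    (diff2 hφ).clm_apply (differentiableAt_const _)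
  have h5 : HasFDerivAt (fun q : X × Y => fderiv 𝕜 φ q.2 k)
      ((fderiv 𝕜 (fun y => fderiv 𝕜 φ y k) p.2).comp (ContinuousLinearMap.snd 𝕜 X Y)) p :=
    h4.hasFDerivAt.comp p hasFDerivAt_snd
  rw [h5.fderiv]
  simp

/-- mixed derivative of a product of a function of the first and a function of the second input -/
lemma mixed_mul {u : X → 𝕜} {v : Y → 𝕜} {p : X × Y} (hu : ContDiffAt 𝕜 2 u p.1)
    (hv : ContDiffAt 𝕜 2 v p.2) (h : X) (k : Y) :
    H2 (fun q : X × Y => u q.1 * v q.2) p (h, 0) (0, k) =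
      fderiv 𝕜 u p.1 h * fderiv 𝕜 v p.2 k := by
  have hf : ContDiffAt 𝕜 2 (fun q : X × Y => u q.1 * v q.2) p :=
    (hu.comp p contDiffAt_fst).mul (hv.comp p contDiffAt_snd)
  rw [H2_eval hf]
  have h1 : (fun q : X × Y => fderiv 𝕜 (fun q : X × Y => u q.1 * v q.2) q (0, k)) =ᶠ[𝓝 p]
      fun q => u q.1 * fderiv 𝕜 v q.2 k := by
    have h2 : ∀ᶠ q : X × Y in 𝓝 p, DifferentiableAt 𝕜 v q.2 :=
      continuousAt_snd.eventually (ev1 hv)
    have h2' : ∀ᶠ q : X × Y in 𝓝 p, DifferentiableAt 𝕜 u q.1 :=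
      continuousAt_fst.eventually (ev1 hu)
    filter_upwards [h2, h2'] with q hq hq'
    have h3 : HasFDerivAt (fun q : X × Y => v q.2)
        ((fderiv 𝕜 v q.2).comp (ContinuousLinearMap.snd 𝕜 X Y)) q :=
      hq.hasFDerivAt.comp q hasFDerivAt_snd
    have h3' : HasFDerivAt (fun q : X × Y => u q.1)
        ((fderiv 𝕜 u q.1).comp (ContinuousLinearMap.fst 𝕜 X Y)) q :=
      hq'.hasFDerivAt.comp q hasFDerivAt_fst
    have h7 : HasFDerivAt (fun q : X × Y => u q.1 * v q.2) _ q := h3'.mul h3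
    rw [h7.fderiv]
    simp
  rw [h1.fderiv_eq]
  have h4 : DifferentiableAt 𝕜 (fun y => fderiv 𝕜 v y k) p.2 :=
    (diff2 hv).clm_apply (differentiableAt_const _)
  have h5 : HasFDerivAt (fun q : X × Y => fderiv 𝕜 v q.2 k)
      ((fderiv 𝕜 (fun y => fderiv 𝕜 v y k) p.2).comp (ContinuousLinearMap.snd 𝕜 X Y)) p :=
    h4.hasFDerivAt.comp p hasFDerivAt_snd
  have h6 : HasFDerivAt (fun q : X × Y => u q.1)
      ((fderiv 𝕜 u p.1).comp (ContinuousLinearMap.fst 𝕜 X Y)) p :=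
    (diff1 hu).hasFDerivAt.comp p hasFDerivAt_fst
  have h7 : HasFDerivAt (fun q : X × Y => u q.1 * fderiv 𝕜 v q.2 k) _ p := h6.mul h5
  rw [h7.fderiv]
  simp [mul_comm]

variable {a b L : ℕ}

lemma free_contDiff {D : Set (X × Y)} {g : ℕ → Fin b → X × Y → 𝕜} {p : X × Y} (hp : p ∈ D)
    {l : ℕ} (hg : ∀ s < l, ∀ o, ContDiffAt 𝕜 2 (g s o) p) :
    ∀ f ∈ Free D g l, ContDiffAt 𝕜 2 f p := by
  intro f hf
  unfold Free at hf
  induction hf using Submodule.span_induction with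
  | mem f hf =>
    rcases hf with ⟨φ, hφ, rfl⟩ | ⟨φ, hφ, rfl⟩ | ⟨s, hs, o, rfl⟩
    · exact (hφ p hp).comp p contDiffAt_fst
    · exact (hφ p hp).comp p contDiffAt_snd
    · exact hg s hs o
  | zero => exact contDiffAt_const (c := (0 : 𝕜))
  | add f f' _ _ h h' => exact h.add h'
  | smul c f _ h => exact h.const_smul c

lemma gates_contDiff' {D : Set (X × Y)} {g : ℕ → Fin b → X × Y → 𝕜} (hnet : IsNet a b L D g)
    {p : X × Y} (hp : p ∈ D) : ∀ s < L, ∀ o, ContDiffAt 𝕜 2 (g s o) p := by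
  intro s
  induction s using Nat.strong_induction_on with
  | _ s ih =>
    intro hs o
    obtain ⟨u, φ, hu, hφ⟩ := hnet.2 s hs
    have h1 : ∀ i, ContDiffAt 𝕜 2 (u i) p := fun i =>
      free_contDiff hp (fun s' hs' o' => ih s' hs' (hs'.trans hs) o') _ (hu i)
    have h2 : ContDiffAt 𝕜 2 (fun y => φ (fun i => u i y) o) p := by
      have h3 : ContDiffAt 𝕜 2 (fun y => (fun i => u i y)) p := contDiffAt_pi.mpr h1
      have h4 := (hφ p hp).1.comp p h3
      exact (contDiffAt_pi.mp h4) o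
    refine h2.congr_of_eventuallyEq ?_
    filter_upwards [hnet.1.mem_nhds hp] with y hy
    exact (hφ y hy).2 o

/-- The mixed terms contributed by the gates. -/
lemma net_mixed {D : Set (X × Y)} {g : ℕ → Fin b → X × Y → 𝕜} (hnet : IsNet a b L D g)
    {p : X × Y} (hp : p ∈ D) :
    ∃ (U : ℕ → Fin a → X →L[𝕜] 𝕜) (V : ℕ → Fin a → Y →L[𝕜] 𝕜)
      (β : ℕ → Fin b → Fin a → Fin a → 𝕜),
      ∀ f ∈ Free D g L, ∃ C : ℕ → Fin b → 𝕜, ∀ h k, H2 f p (h, 0) (0, k) =
        ∑ s ∈ Finset.range L, ∑ o, C s o * ∑ i, ∑ j, β s o i j * (U s j h * V s i k) := by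
  classical
  have hgd := gates_contDiff' hnet hp
  have hdata : ∀ s, ∃ (u : Fin a → X × Y → 𝕜), s < L → (∀ i, u i ∈ Free D g s) ∧
      ∀ o, ∃ (c : Fin a → 𝕜) (β : Fin a → Fin a → 𝕜), ∀ h1 h2 : X × Y,
        H2 (g s o) p h1 h2 = ∑ i, c i * H2 (u i) p h1 h2 +
          ∑ i, ∑ j, β i j * (fderiv 𝕜 (u j) p h1 * fderiv 𝕜 (u i) p h2) := by
    intro s
    by_cases hs : s < L
    swap
    · exact ⟨fun _ _ => 0, fun h => absurd h hs⟩
    obtain ⟨u, φ, hu, hφ⟩ := hnet.2 s hs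
    refine ⟨u, fun _ => ⟨hu, fun o => ?_⟩⟩
    have h1 : ∀ i, ContDiffAt 𝕜 2 (u i) p := fun i =>
      free_contDiff hp (fun s' hs' o' => hgd s' (hs'.trans hs) o') _ (hu i)
    have h2 : ContDiffAt 𝕜 2 (fun y => φ y o) (fun i => u i p) :=
      (contDiffAt_pi.mp (hφ p hp).1) o
    obtain ⟨c, β, h⟩ := H2_comp h1 h2
    refine ⟨c, β, fun h1 h2 => ?_⟩
    rw [← h]
    have h3 : g s o =ᶠ[𝓝 p] fun y => φ (fun i => u i y) o := by
      filter_upwards [hnet.1.mem_nhds hp] with y hy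
      exact (hφ y hy).2 o
    rw [H2_congr h3]
  choose u hu using hdata
  have hdata2 : ∀ s o, ∃ (c : Fin a → 𝕜) (β : Fin a → Fin a → 𝕜), s < L → ∀ h1 h2 : X × Y,
        H2 (g s o) p h1 h2 = ∑ i, c i * H2 (u s i) p h1 h2 +
          ∑ i, ∑ j, β i j * (fderiv 𝕜 (u s j) p h1 * fderiv 𝕜 (u s i) p h2) := by
    intro s o
    by_cases hs : s < L
    · obtain ⟨c, β, h⟩ := (hu s hs).2 o
      exact ⟨c, β, fun _ => h⟩
    · exact ⟨0, 0, fun h => absurd h hs⟩
  choose c β hβ using hdata2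
  refine ⟨fun s i => (fderiv 𝕜 (u s i) p).comp (ContinuousLinearMap.inl 𝕜 X Y),
    fun s i => (fderiv 𝕜 (u s i) p).comp (ContinuousLinearMap.inr 𝕜 X Y), β, ?_⟩
  -- the span of the mixed terms
  let q : ℕ → Fin b → (X → Y → 𝕜) := fun s o h k =>
    ∑ i, ∑ j, β s o i j * (fderiv 𝕜 (u s j) p (h, 0) * fderiv 𝕜 (u s i) p (0, k))
  let Q : ℕ → Submodule 𝕜 (X → Y → 𝕜) := fun l => Submodule.span 𝕜 {f | ∃ s < l, ∃ o, f = q s o}
  have hQmono : ∀ {l l' : ℕ}, l ≤ l' → Q l ≤ Q l' := fun h =>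
    Submodule.span_mono fun f ⟨s, hs, o, e⟩ => ⟨s, by omega, o, e⟩
  have hstep : ∀ l ≤ L, (∀ s < l, ∀ o, (fun h k => H2 (g s o) p (h, 0) (0, k)) ∈ Q l) →
      ∀ f ∈ Free D g l, (fun h k => H2 f p (h, 0) (0, k)) ∈ Q l := by
    intro l hl hgates f hf
    have hcd := free_contDiff (p := p) hp (l := l) (g := g)
      (fun s hs o => hgd s (by omega) o)
    unfold Free at hf
    induction hf using Submodule.span_induction with
    | mem f hf =>
      rcases hf with ⟨φ, hφ, rfl⟩ | ⟨φ, hφ, rfl⟩ | ⟨s, hs, o, rfl⟩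
      · have h1 : (fun (h : X) (k : Y) => H2 (fun q : X × Y => φ q.1) p (h, 0) (0, k)) = 0 := by
          funext h k
          exact mixed_fst (hφ p hp) h k
        rw [h1]
        exact Submodule.zero_mem _
      · have h1 : (fun (h : X) (k : Y) => H2 (fun q : X × Y => φ q.2) p (h, 0) (0, k)) = 0 := by
          funext h k
          exact mixed_snd (hφ p hp) h k
        rw [h1]
        exact Submodule.zero_mem _
      · exact hgates s hs o
    | zero =>
      have : H2 (0 : X × Y → 𝕜) p = 0 := by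
        have h := H2_affine (E := X × Y) (0 : X × Y →L[𝕜] 𝕜) 0 p
        have e : (fun y : X × Y => (0 : X × Y →L[𝕜] 𝕜) y + 0) = (0 : X × Y → 𝕜) := by
          funext y; simp
        rw [e] at h
        exact h
      rw [this]
      exact Submodule.zero_mem _
    | add f f' h1 h2 h h' =>
      rw [H2_add (hcd f h1) (hcd f' h2)]
      exact Submodule.add_mem _ h h'
    | smul c f h1 h =>
      rw [H2_smul c (hcd f h1)]
      exact Submodule.smul_mem _ c h
  have hgates : ∀ s < L, ∀ o, (fun h k => H2 (g s o) p (h, 0) (0, k)) ∈ Q (s + 1) := by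
    intro s
    induction s using Nat.strong_induction_on with
    | _ s ih =>
      intro hs o
      have h1 : ∀ i, (fun h k => H2 (u s i) p (h, 0) (0, k)) ∈ Q s := by
        intro i
        refine hstep s hs.le (fun s' hs' o' => ?_) _ ((hu s hs).1 i)
        exact hQmono (by omega) (ih s' hs' (by omega) o')
      have h2 : (fun h k => H2 (g s o) p (h, 0) (0, k)) =
          ∑ i, c s o i • (fun h k => H2 (u s i) p (h, 0) (0, k)) + q s o := by
        funext h1 h2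
        rw [hβ s o hs (h1, 0) (0, h2)]
        simp only [Pi.add_apply, Finset.sum_apply, Pi.smul_apply, smul_eq_mul, q]
      rw [h2]
      refine Submodule.add_mem _ (Submodule.sum_mem _ fun i _ =>
        Submodule.smul_mem _ _ (hQmono (Nat.le_succ s) (h1 i))) ?_
      exact Submodule.subset_span ⟨s, Nat.lt_succ_self s, o, rfl⟩
  intro f hf
  have hf1 : (fun h k => H2 f p (h, 0) (0, k)) ∈ Q L :=
    hstep L le_rfl (fun s hs o => hQmono (by omega) (hgates s hs o)) f hf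
  -- extraction of coefficients
  have hrep : ∀ F ∈ Q L, ∃ C : ℕ → Fin b → 𝕜, F = ∑ s ∈ Finset.range L, ∑ o, C s o • q s o := by
    intro F hF
    induction hF using Submodule.span_induction with
    | mem F hF =>
      obtain ⟨s, hs, o, rfl⟩ := hF
      refine ⟨fun s' o' => if s' = s ∧ o' = o then 1 else 0, ?_⟩
      rw [Finset.sum_eq_single s, Finset.sum_eq_single o]
      · simp
      · intro o' _ ho'; simp [ho']
      · simp
      · intro s' _ hs'; simp [hs']
      · intro h; exact absurd (Finset.mem_range.mpr hs) h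
    | zero => exact ⟨0, by simp⟩
    | add F F' _ _ hF hF' =>
      obtain ⟨C, rfl⟩ := hF
      obtain ⟨C', rfl⟩ := hF'
      exact ⟨C + C', by simp only [Pi.add_apply, add_smul, Finset.sum_add_distrib]⟩
    | smul c F _ hF =>
      obtain ⟨C, rfl⟩ := hF
      exact ⟨c • C, by simp only [Pi.smul_apply, smul_assoc, Finset.smul_sum]⟩
  obtain ⟨C, hC⟩ := hrep _ hf1
  refine ⟨C, fun h k => ?_⟩
  have := congrFun (congrFun hC h) k
  rw [this]
  simp only [Finset.sum_apply, Pi.smul_apply, smul_eq_mul, q]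
  rfl

end Pool.Agent.X214.LG
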