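import Pool.Agent.X214.LG.Lower

/-!
# Sharpness of the density: coordinates in which no gate is needed
-/

set_option autoImplicit false
set_option linter.unusedSectionVars false

namespace Pool.Agent.X214.LG

open Topology Filter Module Pool.Agent.H515R2.MMR Pool.Agent.H53R3

variable {𝕜 : Type} [RCLike 𝕜]

/-- Positions in the upper right block. -/
def Blk {n : ℕ} (p : Fin n × Fin n) : Prop := (p.1 : ℕ) < n / 2 ∧ n / 2 ≤ (p.2 : ℕ)

instance {n : ℕ} (p : Fin n × Fin n) : Decidable (Blk p) := by unfold Blk; infer_instance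

lemma card_blk (n : ℕ) : Fintype.card {p : Fin n × Fin n // Blk p} = n ^ 2 / 4 := by
  have h1 : Fintype.card {p : Fin n × Fin n // Blk p} =
      Fintype.card ({i : Fin n // (i : ℕ) < n / 2} × {j : Fin n // n / 2 ≤ (j : ℕ)}) :=
    Fintype.card_congr (Equiv.subtypeProdEquivProd
      (p := fun i : Fin n => (i : ℕ) < n / 2) (q := fun j : Fin n => n / 2 ≤ (j : ℕ)))
  rw [h1, Fintype.card_prod]
  have h2 : Fintype.card {i : Fin n // (i : ℕ) < n / 2} = n / 2 :=
    Fintype.card_fin_lt_of_le (Nat.div_le_self n 2)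
  have h3 : Fintype.card {j : Fin n // n / 2 ≤ (j : ℕ)} = n - n / 2 := by
    have h4 := Fintype.card_subtype_compl (fun i : Fin n => (i : ℕ) < n / 2)
    rw [h2, Fintype.card_fin] at h4
    rw [← h4]
    exact Fintype.card_congr (Equiv.subtypeEquivRight fun j => by simp)
  rw [h2, h3]
  rcases Nat.even_or_odd' n with ⟨k, rfl | rfl⟩
  · have e1 : 2 * k / 2 = k := by omega
    have e2 : (2 * k) ^ 2 / 4 = k * k := by
      have : (2 * k) ^ 2 = 4 * (k * k) := by ring
      rw [this]; omega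
    rw [e1, e2]
    congr 1
    omega
  · have e1 : (2 * k + 1) / 2 = k := by omega
    have e2 : (2 * k + 1) ^ 2 / 4 = k * (k + 1) := by
      have : (2 * k + 1) ^ 2 = 4 * (k * (k + 1)) + 1 := by ring
      rw [this]; omega
    rw [e1, e2]
    congr 1
    omega

/-- The block part of a family of numbers. -/
def bl {n : ℕ} (v : Fin n × Fin n → 𝕜) : Matrix (Fin n) (Fin n) 𝕜 :=
  Matrix.of fun i j => if Blk (i, j) then v (i, j) else 0

/-- The part outside of the block. -/
def lo {n : ℕ} (v : Fin n × Fin n → 𝕜) : Matrix (Fin n) (Fin n) 𝕜 :=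
  Matrix.of fun i j => if Blk (i, j) then 0 else v (i, j)

lemma bl_apply {n : ℕ} (v : Fin n × Fin n → 𝕜) (i j : Fin n) :
    bl v i j = if Blk (i, j) then v (i, j) else 0 := rfl

lemma lo_apply {n : ℕ} (v : Fin n × Fin n → 𝕜) (i j : Fin n) :
    lo v i j = if Blk (i, j) then 0 else v (i, j) := rfl

lemma bl_mul_bl {n : ℕ} (v w : Fin n × Fin n → 𝕜) : bl v * bl w = 0 := by
  refine Matrix.ext fun i j => ?_
  rw [Matrix.mul_apply, Matrix.zero_apply]
  refine Finset.sum_eq_zero fun l _ => ?_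
  rw [bl_apply, bl_apply]
  by_cases h : Blk (i, l)
  · rw [if_neg (c := Blk (l, j)), mul_zero]
    intro h'
    have h1 := h.2
    have h2 := h'.1
    simp only at h1 h2
    omega
  · rw [if_neg h, zero_mul]

lemma one_add_bl_mul {n : ℕ} (v w : Fin n × Fin n → 𝕜) :
    (1 + bl v) * (1 + bl w) = 1 + bl (v + w) := by
  have h : bl (v + w) = bl v + bl w := by
    refine Matrix.ext fun i j => ?_
    simp only [bl_apply, Matrix.add_apply, Pi.add_apply]
    split_ifs <;> simp
  rw [add_mul, mul_add, mul_add, bl_mul_bl, h]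
  simp only [one_mul, mul_one, add_zero]
  abel

/-- The entries of the identity matrix. -/
def one' {n : ℕ} : Fin n × Fin n → 𝕜 := fun p => if p.1 = p.2 then 1 else 0

lemma bl_one' {n : ℕ} : bl (one' : Fin n × Fin n → 𝕜) = 0 := by
  refine Matrix.ext fun i j => ?_
  rw [bl_apply, Matrix.zero_apply]
  split_ifs with h
  · unfold one'
    rw [if_neg]
    rintro h'
    have h1 := h.1
    have h2 := h.2
    simp only at h1 h2 h'
    rw [h'] at h1
    omega
  · rfl

lemma lo_one' {n : ℕ} : lo (one' : Fin n × Fin n → 𝕜) = 1 := by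
  refine Matrix.ext fun i j => ?_
  rw [lo_apply, Matrix.one_apply]
  unfold one'
  by_cases h : Blk (i, j)
  · rw [if_pos h, if_neg]
    rintro h'
    have h1 := h.1
    have h2 := h.2
    simp only at h1 h2
    rw [h'] at h1
    omega
  · rw [if_neg h]

section nets

variable {X Y : Type} [NormedAddCommGroup X] [NormedSpace 𝕜 X]
  [NormedAddCommGroup Y] [NormedSpace 𝕜 Y]

lemma free_fst {b : ℕ} {D : Set (X × Y)} {g : ℕ → Fin b → X × Y → 𝕜} {l : ℕ} {φ : X → 𝕜}
    (h : ContDiff 𝕜 2 φ) : (fun p : X × Y => φ p.1) ∈ Free D g l :=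
  Submodule.subset_span (Or.inl ⟨φ, fun _ _ => h.contDiffAt, rfl⟩)

lemma free_snd {b : ℕ} {D : Set (X × Y)} {g : ℕ → Fin b → X × Y → 𝕜} {l : ℕ} {φ : Y → 𝕜}
    (h : ContDiff 𝕜 2 φ) : (fun p : X × Y => φ p.2) ∈ Free D g l :=
  Submodule.subset_span (Or.inr (Or.inl ⟨φ, fun _ _ => h.contDiffAt, rfl⟩))

lemma free_pi {b m : ℕ} {D : Set (X × Y)} {g : ℕ → Fin b → X × Y → 𝕜} {l : ℕ}
    {F : X × Y → Fin m → 𝕜} (h : ∀ r, (fun p => F p r) ∈ Free D g l)
    (ℓ : (Fin m → 𝕜) →L[𝕜] 𝕜) : (fun p => ℓ (F p)) ∈ Free D g l := by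
  classical
  have e : (fun p => ℓ (F p)) = ∑ r, ℓ (Pi.single r 1) • (fun p => F p r) := by
    funext p
    have h1 : F p = ∑ r, F p r • (Pi.single r (1 : 𝕜) : Fin m → 𝕜) := by
      funext j
      simp [Finset.sum_apply, Pi.single_apply]
    conv_lhs => rw [h1]
    simp only [map_sum, map_smul, Finset.sum_apply, Pi.smul_apply, smul_eq_mul]
    exact Finset.sum_congr rfl fun r _ => mul_comm _ _
  rw [e]
  exact Submodule.sum_mem _ fun r _ => Submodule.smul_mem _ _ (h r)

end nets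

lemma contDiff_coord {m : ℕ} (r : Fin m) : ContDiff 𝕜 2 (fun x : Fin m → 𝕜 => x r) :=
  contDiff_apply 𝕜 𝕜 r

lemma hasFDerivAt_coord {m : ℕ} (r : Fin m) (x : Fin m → 𝕜) :
    HasFDerivAt (fun x : Fin m → 𝕜 => x r)
      (ContinuousLinearMap.proj (R := 𝕜) (φ := fun _ => 𝕜) r) x :=
  (ContinuousLinearMap.proj (R := 𝕜) (φ := fun _ : Fin m => 𝕜) r).hasFDerivAt

lemma contDiff_ite {m : ℕ} (c : Prop) [Decidable c] {f g : (Fin m → 𝕜) → 𝕜} (hf : ContDiff 𝕜 2 f)
    (hg : ContDiff 𝕜 2 g) : ContDiff 𝕜 2 (fun x => if c then f x else g x) := by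
  by_cases h : c
  · simpa [h] using hf
  · simpa [h] using hg

lemma contDiff_bl {m n : ℕ} (v : (Fin m → 𝕜) → (Fin n × Fin n → 𝕜))
    (hv : ∀ p, ContDiff 𝕜 2 fun x => v x p) (i j : Fin n) :
    ContDiff 𝕜 2 (fun x => bl (v x) i j) := contDiff_ite _ (hv _) contDiff_const

lemma contDiff_lo {m n : ℕ} (v : (Fin m → 𝕜) → (Fin n × Fin n → 𝕜))
    (hv : ∀ p, ContDiff 𝕜 2 fun x => v x p) (i j : Fin n) :
    ContDiff 𝕜 2 (fun x => lo (v x) i j) := contDiff_ite _ contDiff_const (hv _)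

lemma contDiff_one_add {m n : ℕ} {A : (Fin m → 𝕜) → Matrix (Fin n) (Fin n) 𝕜}
    (hA : ∀ i j, ContDiff 𝕜 2 fun x => A x i j) (i j : Fin n) :
    ContDiff 𝕜 2 (fun x => (1 + A x) i j) := by
  have : (fun x => (1 + A x) i j) = fun x => (1 : Matrix (Fin n) (Fin n) 𝕜) i j + A x i j := rfl
  rw [this]
  exact contDiff_const.add (hA i j)

lemma contDiff_matmul {m n : ℕ} {A B : (Fin m → 𝕜) → Matrix (Fin n) (Fin n) 𝕜}
    (hA : ∀ i j, ContDiff 𝕜 2 fun x => A x i j) (hB : ∀ i j, ContDiff 𝕜 2 fun x => B x i j)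
    (i j : Fin n) : ContDiff 𝕜 2 (fun x => (A x * B x) i j) := by
  have : (fun x => (A x * B x) i j) = fun x => ∑ l, A x i l * B x l j := by
    funext x; rw [Matrix.mul_apply]
  rw [this]
  exact ContDiff.sum fun l _ => (hA i l).mul (hB l j)

/-- derivative of a product of matrix valued functions -/
lemma fderiv_matmul {m n : ℕ} {A B : (Fin m → 𝕜) → Matrix (Fin n) (Fin n) 𝕜} {x : Fin m → 𝕜}
    (hA : ∀ i j, ContDiff 𝕜 2 fun x => A x i j) (hB : ∀ i j, ContDiff 𝕜 2 fun x => B x i j)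
    (i j : Fin n) (h : Fin m → 𝕜) : fderiv 𝕜 (fun x => (A x * B x) i j) x h =
      (dM A x h * B x + A x * dM B x h) i j := by
  have e : (fun x => (A x * B x) i j) = fun x => ∑ l, A x i l * B x l j := by
    funext x; rw [Matrix.mul_apply]
  have hd : HasFDerivAt (fun x => ∑ l, A x i l * B x l j)
      (∑ l, (A x i l • fderiv 𝕜 (fun x => B x l j) x +
        B x l j • fderiv 𝕜 (fun x => A x i l) x)) x := by
    refine HasFDerivAt.fun_sum fun l _ => ?_
    exact (((hA i l).differentiable (by norm_num)) x).hasFDerivAt.mul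
      (((hB l j).differentiable (by norm_num)) x).hasFDerivAt
  rw [e, hd.fderiv]
  simp only [_root_.sum_apply, Matrix.add_apply, Matrix.mul_apply,
    ← Finset.sum_add_distrib]
  refine Finset.sum_congr rfl fun l _ => ?_
  simp [dM_apply]
  ring

lemma fderiv_bl {m n : ℕ} {e : Fin n × Fin n → Fin m} {x : Fin m → 𝕜} (i j : Fin n)
    (h : Fin m → 𝕜) : fderiv 𝕜 (fun x : Fin m → 𝕜 => bl (fun p => x (e p)) i j) x h =
      bl (fun p => h (e p)) i j := by
  by_cases hb : Blk (i, j)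
  · have h1 : (fun x : Fin m → 𝕜 => bl (fun p => x (e p)) i j) = fun x => x (e (i, j)) := by
      funext x; rw [bl_apply, if_pos hb]
    rw [h1, (hasFDerivAt_coord _ x).fderiv, bl_apply, if_pos hb]
    rfl
  · have h1 : (fun x : Fin m → 𝕜 => bl (fun p => x (e p)) i j) = fun x => 0 := by
      funext x; rw [bl_apply, if_neg hb]
    rw [h1, bl_apply, if_neg hb]
    simp

lemma fderiv_lo {m n : ℕ} {e : Fin n × Fin n → Fin m} {x : Fin m → 𝕜} (i j : Fin n)
    (h : Fin m → 𝕜) : fderiv 𝕜 (fun x : Fin m → 𝕜 => lo (fun p => x (e p)) i j) x h =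
      lo (fun p => h (e p)) i j := by
  by_cases hb : Blk (i, j)
  · have h1 : (fun x : Fin m → 𝕜 => lo (fun p => x (e p)) i j) = fun x => 0 := by
      funext x; rw [lo_apply, if_pos hb]
    rw [h1, lo_apply, if_pos hb]
    simp
  · have h1 : (fun x : Fin m → 𝕜 => lo (fun p => x (e p)) i j) = fun x => x (e (i, j)) := by
      funext x; rw [lo_apply, if_neg hb]
    rw [h1, (hasFDerivAt_coord _ x).fderiv, lo_apply, if_neg hb]
    rfl

lemma fderiv_one_add {m n : ℕ} {A : (Fin m → 𝕜) → Matrix (Fin n) (Fin n) 𝕜} {x : Fin m → 𝕜}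
    (i j : Fin n) (h : Fin m → 𝕜) : fderiv 𝕜 (fun x => (1 + A x) i j) x h =
      fderiv 𝕜 (fun x => A x i j) x h := by
  have : (fun x => (1 + A x) i j) = fun x => (1 : Matrix (Fin n) (Fin n) 𝕜) i j + A x i j := rfl
  rw [this, fderiv_const_add]

/-- Numbering of the entries. -/
noncomputable def eN (n : ℕ) : Fin n × Fin n ≃ Fin (n ^ 2) :=
  finProdFinEquiv.trans (finCongr (by ring))

/-- The two charts of the group of invertible matrices. -/
noncomputable def Pc {n : ℕ} (x : Fin (n ^ 2) → 𝕜) : Matrix (Fin n) (Fin n) 𝕜 :=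
  lo (fun p => x (eN n p)) * (1 + bl (fun p => x (eN n p)))

noncomputable def Rc {n : ℕ} (x : Fin (n ^ 2) → 𝕜) : Matrix (Fin n) (Fin n) 𝕜 :=
  (1 + bl (fun p => x (eN n p))) * lo (fun p => x (eN n p))

/-- coordinates of the identity -/
noncomputable def x1 {n : ℕ} : Fin (n ^ 2) → 𝕜 := fun r => one' ((eN n).symm r)

lemma x1_eN {n : ℕ} : (fun p => (x1 : Fin (n ^ 2) → 𝕜) (eN n p)) = one' := by
  funext p; simp [x1]

lemma isChart_Pc {n : ℕ} : IsChart (Pc : (Fin (n ^ 2) → 𝕜) → Matrix (Fin n) (Fin n) 𝕜) x1 := by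
  have hv : ∀ p : Fin n × Fin n, ContDiff 𝕜 2 fun x : Fin (n ^ 2) → 𝕜 => x (eN n p) :=
    fun p => contDiff_coord _
  have hlo := contDiff_lo (fun x : Fin (n ^ 2) → 𝕜 => fun p => x (eN n p)) hv
  have hbl := contDiff_bl (fun x : Fin (n ^ 2) → 𝕜 => fun p => x (eN n p)) hv
  refine ⟨fun i j => (contDiff_matmul hlo (contDiff_one_add hbl) i j).contDiffAt,
    fun h hh => ?_⟩
  funext r
  obtain ⟨⟨i, j⟩, rfl⟩ := (eN n).surjective r
  have h1 := hh i j
  have h2 := fderiv_matmul (x := (x1 : Fin (n ^ 2) → 𝕜)) hlo (contDiff_one_add hbl) i j h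
  have h3 : dM (fun x : Fin (n ^ 2) → 𝕜 => lo (fun p => x (eN n p))) x1 h =
      lo (fun p => h (eN n p)) := by
    refine Matrix.ext fun i j => ?_
    rw [dM_apply]; exact fderiv_lo i j h
  have h4 : dM (fun x : Fin (n ^ 2) → 𝕜 => 1 + bl (fun p => x (eN n p))) x1 h =
      bl (fun p => h (eN n p)) := by
    refine Matrix.ext fun i j => ?_
    rw [dM_apply, fderiv_one_add (A := fun x : Fin (n ^ 2) → 𝕜 => bl (fun p => x (eN n p)))]
    exact fderiv_bl i j h
  rw [h3, h4, x1_eN, bl_one', lo_one', add_zero, mul_one, one_mul] at h2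
  have h5 : fderiv 𝕜 (fun x => (Pc : (Fin (n ^ 2) → 𝕜) → Matrix (Fin n) (Fin n) 𝕜) x i j) x1 h =
      (lo (fun p => h (eN n p)) + bl (fun p => h (eN n p))) i j := h2
  rw [h5, Matrix.add_apply, lo_apply, bl_apply] at h1
  by_cases hb : Blk (i, j)
  · rw [if_pos hb, if_pos hb, zero_add] at h1
    exact h1
  · rw [if_neg hb, if_neg hb, add_zero] at h1
    exact h1

lemma isChart_Rc {n : ℕ} : IsChart (Rc : (Fin (n ^ 2) → 𝕜) → Matrix (Fin n) (Fin n) 𝕜) x1 := by
  have hv : ∀ p : Fin n × Fin n, ContDiff 𝕜 2 fun x : Fin (n ^ 2) → 𝕜 => x (eN n p) :=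
    fun p => contDiff_coord _
  have hlo := contDiff_lo (fun x : Fin (n ^ 2) → 𝕜 => fun p => x (eN n p)) hv
  have hbl := contDiff_bl (fun x : Fin (n ^ 2) → 𝕜 => fun p => x (eN n p)) hv
  refine ⟨fun i j => (contDiff_matmul (contDiff_one_add hbl) hlo i j).contDiffAt,
    fun h hh => ?_⟩
  funext r
  obtain ⟨⟨i, j⟩, rfl⟩ := (eN n).surjective r
  have h1 := hh i j
  have h2 := fderiv_matmul (x := (x1 : Fin (n ^ 2) → 𝕜)) (contDiff_one_add hbl) hlo i j h
  have h3 : dM (fun x : Fin (n ^ 2) → 𝕜 => lo (fun p => x (eN n p))) x1 h =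
      lo (fun p => h (eN n p)) := by
    refine Matrix.ext fun i j => ?_
    rw [dM_apply]; exact fderiv_lo i j h
  have h4 : dM (fun x : Fin (n ^ 2) → 𝕜 => 1 + bl (fun p => x (eN n p))) x1 h =
      bl (fun p => h (eN n p)) := by
    refine Matrix.ext fun i j => ?_
    rw [dM_apply, fderiv_one_add (A := fun x : Fin (n ^ 2) → 𝕜 => bl (fun p => x (eN n p)))]
    exact fderiv_bl i j h
  rw [h3, h4, x1_eN, bl_one', lo_one', add_zero, mul_one, one_mul] at h2
  have h5 : fderiv 𝕜 (fun x => (Rc : (Fin (n ^ 2) → 𝕜) → Matrix (Fin n) (Fin n) 𝕜) x i j) x1 h =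
      (bl (fun p => h (eN n p)) + lo (fun p => h (eN n p))) i j := h2
  rw [h5, Matrix.add_apply, lo_apply, bl_apply] at h1
  by_cases hb : Blk (i, j)
  · rw [if_pos hb, if_pos hb, add_zero] at h1
    exact h1
  · rw [if_neg hb, if_neg hb, zero_add] at h1
    exact h1

/-- Index set of the coordinates of the product. -/
abbrev Mu (n : ℕ) := {p : Fin n × Fin n // ¬ Blk p} ⊕ (Fin n × Fin n)

lemma card_Mu (n : ℕ) : Fintype.card (Mu n) = 2 * n ^ 2 - n ^ 2 / 4 := by
  have h1 := Fintype.card_subtype_compl (fun p : Fin n × Fin n => Blk p)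
  rw [card_blk, Fintype.card_prod, Fintype.card_fin] at h1
  have h2 : Fintype.card (Mu n) = Fintype.card {p : Fin n × Fin n // ¬ Blk p} + n * n := by
    rw [Fintype.card_sum, Fintype.card_prod, Fintype.card_fin]
  rw [h2, h1]
  have h3 : n * n = n ^ 2 := by ring
  rw [h3]
  omega

theorem sharp_full (𝕜 : Type) [RCLike 𝕜] (n a b : ℕ) :
    MulEnc 𝕜 n (n ^ 2) (n ^ 2) (2 * n ^ 2 - n ^ 2 / 4) a b 0 := by
  classical
  let E : Mu n ≃ Fin (2 * n ^ 2 - n ^ 2 / 4) :=
    (Fintype.equivFin (Mu n)).trans (finCongr (card_Mu n))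
  let v1 : (Fin (2 * n ^ 2 - n ^ 2 / 4) → 𝕜) → (Fin n × Fin n → 𝕜) := fun z p =>
    if h : ¬ Blk p then z (E (Sum.inl ⟨p, h⟩)) else 0
  let v2 : (Fin (2 * n ^ 2 - n ^ 2 / 4) → 𝕜) → (Fin n × Fin n → 𝕜) := fun z p =>
    z (E (Sum.inr p))
  have hv1 : ∀ p, ContDiff 𝕜 2 fun z => v1 z p := by
    intro p
    by_cases h : ¬ Blk p
    · simp only [v1, dif_pos h]; exact contDiff_coord _
    · simp only [v1, dif_neg h]; exact contDiff_const
  have hv2 : ∀ p, ContDiff 𝕜 2 fun z => v2 z p := fun p => contDiff_coord _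
  let Fe : (Fin (n ^ 2) → 𝕜) × (Fin (n ^ 2) → 𝕜) → Mu n → 𝕜 := fun q =>
    Sum.elim (fun p => q.1 (eN n p)) (fun p => if Blk p then q.1 (eN n p) + q.2 (eN n p) else
      q.2 (eN n p))
  let F : (Fin (n ^ 2) → 𝕜) × (Fin (n ^ 2) → 𝕜) → (Fin (2 * n ^ 2 - n ^ 2 / 4) → 𝕜) := fun q r =>
    Fe q (E.symm r)
  refine ⟨Pc, Rc, fun z => lo (v1 z) * (1 + bl (v2 z)) * lo (v2 z), x1, x1, F (x1, x1),
    isChart_Pc, ?_, isChart_Rc, ?_, ?_, ?_⟩
  · unfold Pc
    rw [x1_eN, bl_one', lo_one', add_zero, mul_one]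
    exact isUnit_one
  · unfold Rc
    rw [x1_eN, bl_one', lo_one', add_zero, mul_one]
    exact isUnit_one
  · intro i j
    exact (contDiff_matmul (contDiff_matmul (contDiff_lo v1 hv1)
      (contDiff_one_add (contDiff_bl v2 hv2))) (contDiff_lo v2 hv2) i j).contDiffAt
  · refine ⟨Set.univ, fun _ _ _ => 0, F, ⟨isOpen_univ, fun l hl => absurd hl (Nat.not_lt_zero l)⟩,
      Set.mem_univ _, free_pi fun r => ?_, rfl, Eventually.of_forall fun q => ?_⟩
    · obtain ⟨μ, rfl⟩ := E.surjective r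
      have e1 : (fun p => F p (E μ)) = fun p => Fe p μ := by
        funext p; simp [F]
      rw [e1]
      rcases μ with μ | μ
      · exact free_fst (contDiff_coord _)
      · by_cases h : Blk μ
        · have e2 : (fun p => Fe p (Sum.inr μ)) = (fun p => p.1 (eN n μ)) +
              fun p => p.2 (eN n μ) := by
            funext p; simp [Fe, h]
          rw [e2]
          exact Submodule.add_mem _ (free_fst (contDiff_coord _)) (free_snd (contDiff_coord _))
        · have e2 : (fun p => Fe p (Sum.inr μ)) = fun p => p.2 (eN n μ) := by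
            funext p; simp [Fe, h]
          rw [e2]
          exact free_snd (contDiff_coord _)
    · show lo (v1 (F q)) * (1 + bl (v2 (F q))) * lo (v2 (F q)) = Pc q.1 * Rc q.2
      have h1 : lo (v1 (F q)) = lo (fun p => q.1 (eN n p)) := by
        refine Matrix.ext fun i j => ?_
        rw [lo_apply, lo_apply]
        by_cases h : Blk (i, j)
        · rw [if_pos h, if_pos h]
        · rw [if_neg h, if_neg h]
          simp [v1, F, Fe, h]
      have h2 : lo (v2 (F q)) = lo (fun p => q.2 (eN n p)) := by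
        refine Matrix.ext fun i j => ?_
        rw [lo_apply, lo_apply]
        by_cases h : Blk (i, j)
        · rw [if_pos h, if_pos h]
        · rw [if_neg h, if_neg h]
          simp [v2, F, Fe, h]
      have h3 : bl (v2 (F q)) = bl ((fun p => q.1 (eN n p)) + fun p => q.2 (eN n p)) := by
        refine Matrix.ext fun i j => ?_
        rw [bl_apply, bl_apply]
        by_cases h : Blk (i, j)
        · rw [if_pos h, if_pos h]
          simp [v2, F, Fe, h]
        · rw [if_neg h, if_neg h]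
      rw [h1, h2, h3, ← one_add_bl_mul]
      unfold Pc Rc
      simp only [mul_assoc]

theorem sharp_group (𝕜 : Type) [RCLike 𝕜] (n a b : ℕ) :
    MulEnc 𝕜 n (n ^ 2 / 4) (n ^ 2 / 4) (n ^ 2 / 4) a b 0 := by
  classical
  let E : {p : Fin n × Fin n // Blk p} ≃ Fin (n ^ 2 / 4) :=
    (Fintype.equivFin _).trans (finCongr (card_blk n))
  let v : (Fin (n ^ 2 / 4) → 𝕜) → (Fin n × Fin n → 𝕜) := fun z p =>
    if h : Blk p then z (E ⟨p, h⟩) else 0
  have hv : ∀ p, ContDiff 𝕜 2 fun z => v z p := by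
    intro p
    by_cases h : Blk p
    · simp only [v, dif_pos h]; exact contDiff_coord _
    · simp only [v, dif_neg h]; exact contDiff_const
  let P : (Fin (n ^ 2 / 4) → 𝕜) → Matrix (Fin n) (Fin n) 𝕜 := fun x => 1 + bl (v x)
  have hPc : ∀ i j, ContDiff 𝕜 2 fun x => P x i j := contDiff_one_add (contDiff_bl v hv)
  have hP0 : P 0 = 1 := by
    have : bl (v 0) = 0 := by
      refine Matrix.ext fun i j => ?_
      rw [bl_apply, Matrix.zero_apply]
      split_ifs with h
      · simp [v]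
      · rfl
    simp only [P, this, add_zero]
  have hch : IsChart P 0 := by
    refine ⟨fun i j => (hPc i j).contDiffAt, fun h hh => ?_⟩
    funext r
    obtain ⟨⟨⟨i, j⟩, hb⟩, rfl⟩ := E.surjective r
    have h1 := hh i j
    have h2 : (fun x => P x i j) = fun x : Fin (n ^ 2 / 4) → 𝕜 =>
        (1 : Matrix (Fin n) (Fin n) 𝕜) i j + x (E ⟨(i, j), hb⟩) := by
      funext x
      show (1 + bl (v x)) i j = _
      rw [Matrix.add_apply, bl_apply, if_pos hb]
      simp only [v, dif_pos hb]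
    rw [h2, fderiv_const_add, (hasFDerivAt_coord _ _).fderiv] at h1
    exact h1
  refine ⟨P, P, P, 0, 0, 0, hch, hP0 ▸ isUnit_one, hch, hP0 ▸ isUnit_one,
    fun i j => (hPc i j).contDiffAt, Set.univ, fun _ _ _ => 0, fun q => q.1 + q.2,
    ⟨isOpen_univ, fun l hl => absurd hl (Nat.not_lt_zero l)⟩, Set.mem_univ _,
    free_pi fun r => ?_, by simp, Eventually.of_forall fun q => ?_⟩
  · exact Submodule.add_mem _ (free_fst (contDiff_coord _)) (free_snd (contDiff_coord _))
  · show 1 + bl (v (q.1 + q.2)) = (1 + bl (v q.1)) * (1 + bl (v q.2))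
    rw [one_add_bl_mul]
    congr 2
    funext p
    by_cases h : Blk p
    · simp [v, h]
    · simp [v, h]

end Pool.Agent.X214.LG
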