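import Pool.Agent.X214.LG.Sharp

/-!
# The exponent of the number of gates for encodings of products
-/

set_option autoImplicit false
set_option linter.unusedSectionVars false

namespace Pool.Agent.X214.LG

open Topology Filter Module Pool.Agent.H515R2.MMR Pool.Agent.H53R3

/-- The real and the complex numbers embed into the complex numbers. -/
theorem exists_hom (𝕜 : Type) [RCLike 𝕜] : Nonempty (𝕜 →+* ℂ) := by
  rcases RCLike.I_eq_zero_or_im_I_eq_one (K := 𝕜) with h | h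
  · exact ⟨Complex.ofRealHom.comp (RCLike.realRingEquiv h).toRingHom⟩
  · exact ⟨(RCLike.complexRingEquiv h).toRingHom⟩

section upper

variable {𝕜 : Type} [RCLike 𝕜]

/-- The matrix with the given coordinates. -/
noncomputable def mat {n : ℕ} (x : Fin (n ^ 2) → 𝕜) : Matrix (Fin n) (Fin n) 𝕜 :=
  Matrix.of fun i j => x (eN n (i, j))

lemma mat_apply {n : ℕ} (x : Fin (n ^ 2) → 𝕜) (i j : Fin n) : mat x i j = x (eN n (i, j)) := rfl

lemma mat_x1 {n : ℕ} : mat (x1 : Fin (n ^ 2) → 𝕜) = 1 := by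
  refine Matrix.ext fun i j => ?_
  rw [mat_apply, Matrix.one_apply]
  simp [x1, one']

lemma isChart_mat {n : ℕ} (x₀ : Fin (n ^ 2) → 𝕜) :
    IsChart (mat : (Fin (n ^ 2) → 𝕜) → Matrix (Fin n) (Fin n) 𝕜) x₀ := by
  refine ⟨fun i j => (contDiff_coord _).contDiffAt, fun h hh => ?_⟩
  funext r
  obtain ⟨⟨i, j⟩, rfl⟩ := (eN n).surjective r
  have h1 := hh i j
  have h2 : (fun x => (mat : (Fin (n ^ 2) → 𝕜) → Matrix (Fin n) (Fin n) 𝕜) x i j) =
      fun x => x (eN n (i, j)) := rfl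
  rw [h2, (hasFDerivAt_coord _ _).fderiv] at h1
  exact h1

/-- `mat` as a linear map -/
noncomputable def matL (n : ℕ) : (Fin (n ^ 2) → 𝕜) →ₗ[𝕜] Matrix (Fin n) (Fin n) 𝕜 where
  toFun := mat
  map_add' _ _ := rfl
  map_smul' _ _ := rfl

/-- Bilinear algorithms give networks. -/
theorem mulEnc_of_alg {n m a b : ℕ} {κ : Type} [Fintype κ] (ha : 2 ≤ a) (hb : 1 ≤ b)
    (hm : n ^ 2 ≤ m) (f g : κ → (Matrix (Fin n) (Fin n) 𝕜 →ₗ[𝕜] 𝕜))
    (W : κ → Matrix (Fin n) (Fin n) 𝕜) (H : ∀ A B, A * B = ∑ t, (f t A * g t B) • W t) :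
    MulEnc 𝕜 n (n ^ 2) (n ^ 2) m a b (Fintype.card κ) := by
  classical
  set L := Fintype.card κ with hL
  let e : κ ≃ Fin L := Fintype.equivFin κ
  let X := Fin (n ^ 2) → 𝕜
  let p : ℕ → X → 𝕜 := fun l x => if h : l < L then f (e.symm ⟨l, h⟩) (mat x) else 0
  let q : ℕ → X → 𝕜 := fun l x => if h : l < L then g (e.symm ⟨l, h⟩) (mat x) else 0
  have hlin : ∀ φ : Matrix (Fin n) (Fin n) 𝕜 →ₗ[𝕜] 𝕜, ContDiff 𝕜 2 fun x : X => φ (mat x) := by
    intro φ
    have : (fun x : X => φ (mat x)) = LinearMap.toContinuousLinearMap (φ.comp (matL n)) := by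
      funext x; rfl
    rw [this]
    exact ContinuousLinearMap.contDiff _
  have hp : ∀ l, ContDiff 𝕜 2 (p l) := by
    intro l
    by_cases h : l < L
    · simp only [p, dif_pos h]; exact hlin _
    · simp only [p, dif_neg h]; exact contDiff_const
  have hq : ∀ l, ContDiff 𝕜 2 (q l) := by
    intro l
    by_cases h : l < L
    · simp only [q, dif_pos h]; exact hlin _
    · simp only [q, dif_neg h]; exact contDiff_const
  let gg : ℕ → Fin b → X × X → 𝕜 := fun l _ z => p l z.1 * q l z.2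
  let F : X × X → Fin m → 𝕜 := fun z r =>
    if h : (r : ℕ) < n ^ 2 then (mat z.1 * mat z.2) ((eN n).symm ⟨r, h⟩).1 ((eN n).symm ⟨r, h⟩).2
    else 0
  have hun : IsUnit (mat (x1 : Fin (n ^ 2) → 𝕜)) := by
    rw [mat_x1]; exact isUnit_one
  refine ⟨mat, mat, fun z => Matrix.of fun i j => z (Fin.castLE hm (eN n (i, j))), x1, x1,
    F (x1, x1), isChart_mat _, hun, isChart_mat _, hun,
    fun i j => (contDiff_coord _).contDiffAt, Set.univ, gg, F, ⟨isOpen_univ, ?_⟩,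
    Set.mem_univ _, free_pi fun r => ?_, rfl, Eventually.of_forall fun z => ?_⟩
  · intro l hl
    refine ⟨fun i => if (i : ℕ) = 0 then fun z => p l z.1 else fun z => q l z.2,
      fun v _ => v ⟨0, by omega⟩ * v ⟨1, by omega⟩, ?_, ?_⟩
    · intro i
      by_cases hi : (i : ℕ) = 0
      · simp only [if_pos hi]; exact free_fst (hp l)
      · simp only [if_neg hi]; exact free_snd (hq l)
    · intro x _
      refine ⟨?_, fun o => by simp [gg]⟩
      refine contDiffAt_pi.mpr fun o => ?_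
      have h0 : ContDiff 𝕜 2 fun v : Fin a → 𝕜 => v ⟨0, by omega⟩ := contDiff_apply 𝕜 𝕜 _
      have h1 : ContDiff 𝕜 2 fun v : Fin a → 𝕜 => v ⟨1, by omega⟩ := contDiff_apply 𝕜 𝕜 _
      exact (h0.mul h1).contDiffAt
  · by_cases h : (r : ℕ) < n ^ 2
    · set ij := (eN n).symm ⟨r, h⟩ with hij
      have e1 : (fun z => F z r) = ∑ t, W t ij.1 ij.2 • gg (e t) ⟨0, hb⟩ := by
        funext z
        have e2 : F z r = (mat z.1 * mat z.2) ij.1 ij.2 := by
          simp only [F, dif_pos h, hij]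
        rw [e2, H, Matrix.sum_apply, Finset.sum_apply]
        refine Finset.sum_congr rfl fun t _ => ?_
        have h1 : p (e t) = fun x => f t (mat x) := by
          funext x
          simp only [p]
          rw [dif_pos (e t).2]
          congr 2
          exact e.symm_apply_apply t
        have h2 : q (e t) = fun x => g t (mat x) := by
          funext x
          simp only [q]
          rw [dif_pos (e t).2]
          congr 2
          exact e.symm_apply_apply t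
        simp only [Matrix.smul_apply, Pi.smul_apply, smul_eq_mul, gg, h1, h2]
        ring
      rw [e1]
      refine Submodule.sum_mem _ fun t _ => Submodule.smul_mem _ _ ?_
      exact Submodule.subset_span (Or.inr (Or.inr ⟨e t, (e t).2, ⟨0, hb⟩, rfl⟩))
    · have e1 : (fun z => F z r) = 0 := by
        funext z
        simp only [F, dif_neg h]
        rfl
      rw [e1]
      exact Submodule.zero_mem _
  · refine Matrix.ext fun i j => ?_
    have h : ((Fin.castLE hm (eN n (i, j)) : Fin m) : ℕ) < n ^ 2 := (eN n (i, j)).2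
    have h' : (⟨((Fin.castLE hm (eN n (i, j)) : Fin m) : ℕ), h⟩ : Fin (n ^ 2)) = eN n (i, j) :=
      Fin.ext rfl
    show F z (Fin.castLE hm (eN n (i, j))) = (mat z.1 * mat z.2) i j
    simp only [F]
    rw [dif_pos h, h', Equiv.symm_apply_apply]

end upper

/-- Complex bilinear algorithms. -/
lemma cplx_alg {n r : ℕ} (h : HasRank n r) :
    ∃ (f g : Fin r → (Mt n →ₗ[ℂ] ℂ)) (W : Fin r → Mt n),
      ∀ A B, A * B = ∑ t, (f t A * g t B) • W t := by
  classical
  obtain ⟨f, g, h, H⟩ := hasRestrRank_of_hasRank h (⊤ : Submodule ℂ (Mt n)) ⊤ ⊤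
  refine ⟨f, g, fun t => Matrix.of fun i k => h t (Matrix.single k i (1 : ℂ)), fun A B => ?_⟩
  refine Matrix.ext fun i k => ?_
  have h1 := H A trivial B trivial (Matrix.single k i (1 : ℂ)) trivial
  have h2 : (A * B * Matrix.single k i (1 : ℂ)).trace = (A * B) i k := by
    rw [Matrix.trace_mul_single]
    simp
  rw [← h2, h1, Matrix.sum_apply]
  rfl

/-- the complex matrix of a real one -/
noncomputable def toC (n : ℕ) : Matrix (Fin n) (Fin n) ℝ →ₗ[ℝ] Mt n where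
  toFun A := A.map Complex.ofReal
  map_add' A B := by
    refine Matrix.ext fun i j => ?_
    simp
  map_smul' c A := by
    refine Matrix.ext fun i j => ?_
    simp

/-- Real bilinear algorithms. -/
lemma real_alg {n r : ℕ} (h : HasRank n r) :
    ∃ (f g : Fin r × Fin 4 → (Matrix (Fin n) (Fin n) ℝ →ₗ[ℝ] ℝ))
      (W : Fin r × Fin 4 → Matrix (Fin n) (Fin n) ℝ),
      ∀ A B, A * B = ∑ t, (f t A * g t B) • W t := by
  obtain ⟨f, g, W, H⟩ := cplx_alg h
  let fr : Fin r → (Matrix (Fin n) (Fin n) ℝ →ₗ[ℝ] ℝ) := fun t =>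
    Complex.reLm.comp (((f t).restrictScalars ℝ).comp (toC n))
  let fi : Fin r → (Matrix (Fin n) (Fin n) ℝ →ₗ[ℝ] ℝ) := fun t =>
    Complex.imLm.comp (((f t).restrictScalars ℝ).comp (toC n))
  let gr : Fin r → (Matrix (Fin n) (Fin n) ℝ →ₗ[ℝ] ℝ) := fun t =>
    Complex.reLm.comp (((g t).restrictScalars ℝ).comp (toC n))
  let gi : Fin r → (Matrix (Fin n) (Fin n) ℝ →ₗ[ℝ] ℝ) := fun t =>
    Complex.imLm.comp (((g t).restrictScalars ℝ).comp (toC n))
  refine ⟨fun t => ![fr t.1, fi t.1, fr t.1, fi t.1] t.2,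
    fun t => ![gr t.1, gi t.1, gi t.1, gr t.1] t.2,
    fun t => ![(W t.1).map Complex.re, -(W t.1).map Complex.re, -(W t.1).map Complex.im,
      -(W t.1).map Complex.im] t.2, fun A B => ?_⟩
  refine Matrix.ext fun i j => ?_
  have h1 : ((A * B) i j : ℝ) = ((toC n A * toC n B) i j).re := by
    have : toC n A * toC n B = toC n (A * B) := by
      show A.map Complex.ofRealHom * B.map Complex.ofRealHom = (A * B).map Complex.ofRealHom
      rw [Matrix.map_mul]
    rw [this]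
    simp [toC]
  rw [h1, H, Matrix.sum_apply, Complex.re_sum, Matrix.sum_apply, Fintype.sum_prod_type]
  refine Finset.sum_congr rfl fun t _ => ?_
  simp only [Fin.sum_univ_four, Matrix.cons_val_zero, Matrix.cons_val_one, Matrix.cons_val,
    Matrix.smul_apply, smul_eq_mul, Complex.mul_re, Complex.mul_im, Matrix.neg_apply,
    Matrix.map_apply]
  have e1 : fr t A = (f t (toC n A)).re := rfl
  have e2 : fi t A = (f t (toC n A)).im := rfl
  have e3 : gr t B = (g t (toC n B)).re := rfl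
  have e4 : gi t B = (g t (toC n B)).im := rfl
  rw [e1, e2, e3, e4]
  ring

/-- The asymptotic lower bound. -/
theorem asymp {ε : ℝ} (hε : 0 < ε) : ∃ c : ℝ, 0 < c ∧ ∃ n₀ : ℕ,
    ∀ (𝕜 : Type) [RCLike 𝕜] (n m₁ m₂ m a b L : ℕ), n₀ ≤ n → MulEnc 𝕜 n m₁ m₂ m a b L →
      (1 / 4 + ε) * (n : ℝ) ^ 2 + m ≤ m₁ + m₂ →
      c * (n : ℝ) ^ omega ≤ ((L * (a * min a b) : ℕ) : ℝ) := by
  obtain ⟨n₂, hn₂⟩ := exists_nat_gt (48 / ε)
  refine ⟨(ε / 16) ^ omega / 2, by positivity, n₂ + 1, ?_⟩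
  intro 𝕜 _ n m₁ m₂ m a b L hn H hd
  obtain ⟨σ⟩ := exists_hom 𝕜
  have h2' : (n₂ : ℝ) + 1 ≤ n := by exact_mod_cast hn
  have hn48 : 48 / ε < n := by linarith
  have hεn : 48 < ε * n := by
    rw [div_lt_iff₀ hε] at hn48
    linarith
  have hn0 : (0 : ℝ) < n := by
    by_contra hcon
    push Not at hcon
    nlinarith
  set q : ℕ := ⌈ε * n / 16⌉₊ with hq
  have hq1 : 1 ≤ q := by
    rw [hq]
    exact Nat.one_le_iff_ne_zero.mpr (Nat.ceil_pos.mpr (by positivity)).ne'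
  have hqle : (q : ℝ) < ε * n / 16 + 1 := Nat.ceil_lt_add_one (by positivity)
  have hqge : ε * n / 16 ≤ q := Nat.le_ceil _
  have hdim : n ^ 2 + (16 * q + 4) * n + 4 * m < 4 * (m₁ + m₂) := by
    have : ((n ^ 2 + (16 * q + 4) * n + 4 * m : ℕ) : ℝ) < ((4 * (m₁ + m₂) : ℕ) : ℝ) := by
      push_cast
      have h3 : (16 * (q : ℝ) + 4) * n < (ε * n + 20) * n := by
        apply mul_lt_mul_of_pos_right _ hn0
        linarith
      nlinarith
    exact_mod_cast this
  have hb := lower σ H hq1 hdim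
  have h4 : (ε / 16) ^ omega * (n : ℝ) ^ omega ≤ (q : ℝ) ^ omega := by
    rw [← Real.mul_rpow (by positivity) (by positivity)]
    refine Real.rpow_le_rpow (by positivity) ?_ omega_nonneg
    linarith
  linarith

/-- The exponent. -/
theorem exponent {a b : ℕ} (ha : 2 ≤ a) (hb : 1 ≤ b) {ε : ℝ} (hε : 0 < ε) (m : ℕ → ℕ)
    (hm : ∀ n, n ^ 2 ≤ m n) (hm' : ∀ᶠ n : ℕ in atTop, (m n : ℝ) ≤ (7 / 4 - ε) * (n : ℝ) ^ 2) :
    sInf {τ : ℝ | ∃ C : ℝ, ∀ n : ℕ, ∃ L : ℕ, MulEnc ℝ n (n ^ 2) (n ^ 2) (m n) a b L ∧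
      (L : ℝ) ≤ C * (n : ℝ) ^ τ} = omega := by
  obtain ⟨c, hc, n₀, hlow⟩ := asymp hε
  obtain ⟨n₁, hn₁⟩ := eventually_atTop.mp hm'
  have hlb : ∀ τ ∈ {τ : ℝ | ∃ C : ℝ, ∀ n : ℕ, ∃ L : ℕ, MulEnc ℝ n (n ^ 2) (n ^ 2) (m n) a b L ∧
      (L : ℝ) ≤ C * (n : ℝ) ^ τ}, omega ≤ τ := by
    rintro τ ⟨C, hC⟩
    by_contra hcon
    push Not at hcon
    set K : ℝ := ((a * min a b : ℕ) : ℝ) with hK
    have hK0 : 0 < K := by
      have : 0 < a * min a b := Nat.mul_pos (by omega) (by omega)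
      rw [hK]
      exact_mod_cast this
    have t := (tendsto_rpow_atTop (y := omega - τ) (by linarith)).comp
      (tendsto_natCast_atTop_atTop (R := ℝ))
    obtain ⟨n, hn1, hn2⟩ := ((t.eventually (eventually_gt_atTop (C * K / c))).and
      (eventually_ge_atTop (max 1 (max n₀ n₁)))).exists
    obtain ⟨L, hL1, hL2⟩ := hC n
    have hn3 : 1 ≤ n := le_trans (le_max_left _ _) hn2
    have hn4 : n₀ ≤ n := le_trans (le_trans (le_max_left _ _) (le_max_right _ _)) hn2
    have hn5 : n₁ ≤ n := le_trans (le_trans (le_max_right _ _) (le_max_right _ _)) hn2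
    have hn0 : (0 : ℝ) < n := by exact_mod_cast hn3
    have h1 := hlow ℝ n (n ^ 2) (n ^ 2) (m n) a b L hn4 hL1 (by
      have := hn₁ n hn5
      push_cast
      nlinarith)
    have h2 : c * (n : ℝ) ^ omega ≤ C * (n : ℝ) ^ τ * K := by
      refine h1.trans ?_
      rw [Nat.cast_mul, ← hK]
      gcongr
    have h3 : (n : ℝ) ^ omega = (n : ℝ) ^ (omega - τ) * (n : ℝ) ^ τ := by
      rw [← Real.rpow_add hn0]; congr 1; ring
    rw [h3] at h2
    simp only [Function.comp] at hn1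
    have h4 : 0 < (n : ℝ) ^ τ := Real.rpow_pos_of_pos hn0 _
    rw [div_lt_iff₀ hc] at hn1
    nlinarith
  have hsub : {τ : ℝ | ∃ C : ℝ, ∀ n : ℕ, (rk n : ℝ) ≤ C * (n : ℝ) ^ τ} ⊆
      {τ : ℝ | ∃ C : ℝ, ∀ n : ℕ, ∃ L : ℕ, MulEnc ℝ n (n ^ 2) (n ^ 2) (m n) a b L ∧
        (L : ℝ) ≤ C * (n : ℝ) ^ τ} := by
    rintro τ ⟨C, hC⟩
    refine ⟨4 * C, fun n => ⟨Fintype.card (Fin (rk n) × Fin 4), ?_, ?_⟩⟩
    · obtain ⟨f, g, W, H⟩ := real_alg (hasRank_rk n)
      exact mulEnc_of_alg ha hb (hm n) f g W H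
    · rw [Fintype.card_prod, Fintype.card_fin, Fintype.card_fin]
      push_cast
      have := hC n
      linarith
  refine le_antisymm ?_ ?_
  · exact csInf_le_csInf ⟨omega, hlb⟩ omega_set_nonempty hsub
  · exact le_csInf (omega_set_nonempty.mono hsub) hlb

end Pool.Agent.X214.LG
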